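import Pool.Agent.TH87.RVE.Fin

set_option autoImplicit false
set_option linter.unusedSectionVars false

/-! The bound of `TH87.RVE.comp_bound` for an arbitrary set `A` preserved by the card
isomorphisms (the proof is the same). -/

namespace Pool.Agent.Y400.Rec

open Finset Classical
open Pool.Agent.H234RC (Hypo NonIso)
open Pool.Agent.TH87.RVC (actF mem_actF FF FF_inv del relAut)
open Pool.Agent.TH87.RVE

variable {V : Type} [Fintype V]

theorem comp_bound {G H : SimpleGraph V} {π : V → Equiv.Perm V} (hH : Hypo G H π)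
    (hN : NonIso G H) (A L : Finset V) (hL : ∀ v, v ∈ L ↔ v ∉ A)
    (hmapsA : ∀ v u, π v u ∈ A ↔ u ∈ A) :
    ∃ s : ℕ, (comps G L).card ≤ s * (s + 2) ∧
      (3 / 2 : ℝ) ^ s ≤ 2 * (Nat.card (relAut G A L) : ℝ) := by
  by_cases h3 : (comps G L).card < 3
  · refine ⟨1, by omega, ?_⟩
    have : (1 : ℝ) ≤ (Nat.card (relAut G A L) : ℝ) := by
      exact_mod_cast Nat.succ_le_of_lt Nat.card_pos
    rw [pow_one]; linarith
  push Not at h3
  have hlo : 3 ≤ L.card := by
    refine h3.trans ?_
    unfold comps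
    exact card_image_le
  have hn : 3 ≤ Fintype.card V := hlo.trans (card_le_univ _)
  obtain ⟨i0, hi0⟩ : L.Nonempty := card_pos.mp (by omega)
  have hmapsL : ∀ v u, π v u ∈ L ↔ u ∈ L := fun v u => by
    rw [hL, hL, hmapsA]
  have hLA : ∀ v ∈ L, v ∉ A := fun v hv => (hL v).mp hv
  have hAL : ∀ v, v ∉ L → v ∈ A := by
    intro v hv
    by_contra h
    exact hv ((hL v).mpr h)
  -- restrictions
  let α : V → Equiv.Perm {x // x ∈ A} := fun v => (π v).subtypePerm (fun x => hmapsA v x)
  have hα : ∀ v (x : {x // x ∈ A}), ((α v x : {x // x ∈ A}) : V) = π v x := fun v x => rfl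
  let NG : V → Finset {x // x ∈ A} := fun v => univ.filter (fun x => G.Adj v x)
  let NH : V → Finset {x // x ∈ A} := fun v => univ.filter (fun x => H.Adj v x)
  have hNG : ∀ v (x : {x // x ∈ A}), x ∈ NG v ↔ G.Adj v x := fun v x => by simp [NG]
  have hNH : ∀ v (x : {x // x ∈ A}), x ∈ NH v ↔ H.Adj v x := fun v x => by simp [NH]
  have hrel : ∀ i ∈ L, ∀ j, j ≠ i → NH (π i j) = actF _ (α i) (NG j) := by
    intro i hi j hji
    ext x
    obtain ⟨y, rfl⟩ := (α i).surjective x
    rw [mem_actF, hNG, hNH, hα]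
    have hyi : (y : V) ≠ i := fun h => hLA i hi (h ▸ y.2)
    exact hH.adj i j y hji hyi
  let Γ := relAut G A L
  let φ : Γ →* Equiv.Perm (Typ V {x // x ∈ A}) := (actT V {x // x ∈ A}).comp Γ.subtype
  have hφ : ∀ (g : Γ) s, φ g s = actT V {x // x ∈ A} (g : Equiv.Perm {x // x ∈ A}) s :=
    fun g s => rfl
  let N' : V → Finset {x // x ∈ A} := fun x => actF _ (α i0)⁻¹ (NH x)
  have hN' : ∀ x, NH x = actF _ (α i0) (N' x) := by
    intro x
    show _ = actF _ (α i0) (actF _ (α i0)⁻¹ (NH x))
    rw [map_inv]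
    exact ((actF _ (α i0)).apply_symm_apply _).symm
  -- deck condition
  have hdeck : ∀ v ∈ L, ∃ g : Γ, ∀ y, wt H N' (L.erase v) (φ g y) = wt G NG (L.erase v) y := by
    intro i hi
    have hmem : (α i0)⁻¹ * α i ∈ Γ := by
      refine ⟨(π i0).symm * π i, fun x => ?_, fun x => ?_, fun x y hx hy => ?_⟩
      · rw [Equiv.Perm.mul_apply]
        rw [Equiv.symm_apply_eq, ← hα, Equiv.Perm.mul_apply]
        have : α i0 ((α i0)⁻¹ (α i x)) = α i x := (α i0).apply_symm_apply _
        rw [← hα i0, this]
      · rw [Equiv.Perm.mul_apply, ← hmapsL i0, Equiv.apply_symm_apply, hmapsL i]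
      · rw [Equiv.Perm.mul_apply, Equiv.Perm.mul_apply]
        have hx1 : (π i0).symm (π i x) ∉ L := by
          rw [← hmapsL i0, Equiv.apply_symm_apply, hmapsL i]; exact hx
        have hy1 : (π i0).symm (π i y) ∉ L := by
          rw [← hmapsL i0, Equiv.apply_symm_apply, hmapsL i]; exact hy
        have hx2 : (π i0).symm (π i x) ≠ i0 := fun h => hx1 (by rw [h]; exact hi0)
        have hy2 : (π i0).symm (π i y) ≠ i0 := fun h => hy1 (by rw [h]; exact hi0)
        have h1 := hH.adj i0 _ _ hx2 hy2
        rw [Equiv.apply_symm_apply, Equiv.apply_symm_apply] at h1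
        rw [← h1]
        exact hH.adj i x y (fun h => hx (h ▸ hi)) (fun h => hy (h ▸ hi))
    refine ⟨⟨_, hmem⟩, fun y => ?_⟩
    rw [hφ]
    apply wt_map G H NG N' (L.erase i) (L.erase i) (π i)
    · intro x
      rw [mem_erase, mem_erase, hmapsL]
      have : π i x ≠ i ↔ x ≠ i := by
        rw [← (π i).injective.ne_iff (x := x), hH.fix]
      rw [this]
    · intro x y hx hy
      exact hH.adj i x y (mem_erase.mp hx).1 (mem_erase.mp hy).1
    · intro x hx
      show actF _ (α i0)⁻¹ (NH (π i x)) = _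
      rw [hrel i hi x (mem_erase.mp hx).1]
      show _ = actF _ ((α i0)⁻¹ * α i) (NG x)
      rw [map_mul]; rfl
  have hcardEq : ∀ v ∈ L, (comps H (L.erase v)).card = (comps G (L.erase v)).card := by
    intro v hv
    obtain ⟨g, hg⟩ := hdeck v hv
    rw [← sum_wt_card H N', ← sum_wt_card G NG, ← Equiv.sum_comp (φ g)]
    exact sum_congr rfl (fun y _ => hg y)
  -- the graph `H` has at least two components
  have hH2 : 2 ≤ (comps H L).card := by
    by_contra hcon
    obtain ⟨v, hv, h1⟩ := exists_noncut H L ⟨i0, hi0⟩ (by omega)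
    have h2 := card_erase_ge G L v hv
    rw [hcardEq v hv] at h1
    omega
  set w := wt G NG L with hw
  set w' := wt H N' L with hw'
  have hsz : ∀ (g : Γ) y, sz (φ g y) = sz y := fun g y => sz_actT _ _
  have hk0 := kel_main φ sz II PP card_II hsz (fun g y f => hE _ y f) sum_PP w w'
    (fun y hy => wt_zero G NG L y hy) (fun y hy => wt_zero H N' L y hy)
    (by rw [hw, hw', sum_wt_sz, sum_wt_sz])
    (by
      intro c
      rw [hw, hw', TT_eq, TT_eq]
      apply sum_congr rfl
      intro v hv
      obtain ⟨g, hg⟩ := hdeck v hv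
      rw [← FF_inv φ c (wt H N' (L.erase v)) g]
      congr 1
      funext y
      exact (hg y).symm)
  have hcG : ∑ y, w y = (comps G L).card := sum_wt_card G NG L
  have hcH : ∑ y, w' y = (comps H L).card := sum_wt_card H N' L
  have hk2 := hk0 2 (by omega) (by omega)
  have hNN : ∑ y, w y = ∑ y, w' y := by
    have := inv_sum φ w w' 2 le_rfl hk2 (fun _ => 1) (fun _ _ => rfl)
    simpa using this
  set N := (comps G L).card with hNdef
  have hk := hk0 N (by omega) (by omega)
  -- sizes
  have hsizes : ∀ r : ℕ, ∑ y, (if sz y = r then 1 else 0) * w y =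
      ∑ y, (if sz y = r then 1 else 0) * w' y := by
    intro r
    exact inv_sum φ w w' 2 le_rfl hk2 (fun y => if sz y = r then 1 else 0)
      (fun g y => by simp only [hsz])
  -- a smallest component
  obtain ⟨D0, hD0, hmin⟩ := exists_min_image (comps G L) (fun D => D.card)
    (card_pos.mp (by omega))
  obtain ⟨v, hv⟩ := comps_nonempty G L D0 hD0
  have hvL := comps_sub G L D0 hD0 hv
  set r0 := D0.card with hr0
  have hr0p : 0 < r0 := card_pos.mpr ⟨v, hv⟩
  have hwlt : ∀ y, sz y < r0 → w y = 0 := by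
    intro y hy
    by_contra hne
    obtain ⟨D, hD, rfl⟩ := wt_pos G NG L y hne
    rw [sz_mk] at hy
    have := hmin D hD
    simp only at hy
    omega
  have hwlt' : ∀ y, sz y < r0 → w' y = 0 := by
    intro y hy
    have h1 := hsizes (sz y)
    have h2 : ∑ z, (if sz z = sz y then 1 else 0) * w z = 0 := by
      apply sum_eq_zero
      intro z _
      by_cases h : sz z = sz y
      · rw [hwlt z (by omega)]; simp
      · rw [if_neg h, zero_mul]
    rw [h2] at h1
    have h3 := (sum_eq_zero_iff.mp h1.symm) y (mem_univ _)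
    simpa using h3
  set D' := comp H L v with hD'
  have hD'c : D' ∈ comps H L := comp_mem_comps H L v hvL
  have hvD' : v ∈ D' := comp_self H L v hvL
  set t := mk (D0, G, NG) with ht
  set t' := mk (D', H, N') with ht'
  have hszt : sz t = r0 := sz_mk _
  have hszt' : sz t' = D'.card := sz_mk _
  have hwt : 1 ≤ w t := by
    rw [hw, wt_comp G NG L D0 hD0, if_pos rfl]; omega
  have hwt' : 1 ≤ w' t' := by
    rw [hw', wt_comp H N' L D' hD'c, if_pos rfl]; omega
  have hD'ge : r0 ≤ D'.card := by
    by_contra hlt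
    have := hwlt' t' (by omega)
    omega
  obtain ⟨g, hg⟩ := hdeck v hvL
  have hg2 : ∀ y, del w' t' (φ g y) + wt H N' (D'.erase v) (φ g y) =
      del w t y + wt G NG (D0.erase v) y := by
    intro y
    rw [← wt_erase' H N' L D' hD'c v hvD', ← wt_erase' G NG L D0 hD0 v hv]
    exact hg y
  have hD0e : (D0.erase v).card < r0 := by
    rw [card_erase_of_mem hv]; omega
  have hD'r : D'.card = r0 := by
    by_contra hne
    have hlt : r0 < D'.card := lt_of_le_of_ne hD'ge (fun e => hne e.symm)
    have h1 := hsizes r0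
    have e2 : ∑ y, (if y = t then 1 else 0) = 1 := by
      rw [sum_ite_eq' univ t]; simp
    have e1 : ∑ y, (if sz y = r0 then 1 else 0) * del w t y + ∑ y, (if y = t then 1 else 0) =
        ∑ y, (if sz y = r0 then 1 else 0) * w y := by
      rw [← sum_add_distrib]
      apply sum_congr rfl
      intro y _
      unfold del
      by_cases h : y = t
      · rw [if_pos h, if_pos h, h, if_pos hszt]; omega
      · rw [if_neg h, if_neg h]; rfl
    have e3 : ∑ y, (if sz y = r0 then 1 else 0) * w' y ≤
        ∑ y, (if sz y = r0 then 1 else 0) * del w t y := by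
      rw [← Equiv.sum_comp (φ g)]
      apply sum_le_sum
      intro y _
      rw [hsz]
      by_cases h : sz y = r0
      · rw [if_pos h, one_mul, one_mul]
        have h2 := hg2 y
        rw [wt_large G NG (D0.erase v) y (by omega)] at h2
        have h4 : del w' t' (φ g y) = w' (φ g y) := by
          unfold del
          rw [if_neg]
          intro h5
          have h6 := congrArg sz h5
          rw [hsz] at h6
          omega
        omega
      · rw [if_neg h, zero_mul]; exact Nat.zero_le _
    omega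
  have hrel2 : ∀ y, del w' t' (φ g y) = del w t y := by
    intro y
    by_cases h : r0 ≤ sz y
    · have h2 := hg2 y
      rw [wt_large G NG (D0.erase v) y (by omega), wt_large H N' (D'.erase v) (φ g y)
        (by rw [hsz, card_erase_of_mem hvD']; omega)] at h2
      omega
    · have h4 : w y = 0 := hwlt y (by omega)
      have h5 : w' (φ g y) = 0 := hwlt' _ (by rw [hsz]; omega)
      unfold del
      rw [h4, h5]
      simp
  -- not equivalent
  have hneq : ¬ ∃ γ : Γ, ∀ x, w' (φ γ x) = w x := by
    rintro ⟨⟨γ, ρ, hρ1, hρ2, hρ3⟩, hγ⟩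
    apply hN
    let ι := {D // D ∈ comps G L}
    let ι' := {D // D ∈ comps H L}
    have cardG : ∀ x, Fintype.card {j : ι // mk ((j : Finset V), G, NG) = x} = wt G NG L x := by
      intro x
      unfold wt
      rw [← Fintype.card_coe]
      apply Fintype.card_congr
      exact ⟨fun j => ⟨j.1.1, mem_filter.mpr ⟨j.1.2, j.2⟩⟩,
        fun j => ⟨⟨j.1, (mem_filter.mp j.2).1⟩, (mem_filter.mp j.2).2⟩,
        fun _ => rfl, fun _ => rfl⟩
    have cardH : ∀ x, Fintype.card {j : ι' // mk ((j : Finset V), H, N') = x} = wt H N' L x := by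
      intro x
      unfold wt
      rw [← Fintype.card_coe]
      apply Fintype.card_congr
      exact ⟨fun j => ⟨j.1.1, mem_filter.mpr ⟨j.1.2, j.2⟩⟩,
        fun j => ⟨⟨j.1, (mem_filter.mp j.2).1⟩, (mem_filter.mp j.2).2⟩,
        fun _ => rfl, fun _ => rfl⟩
    have hfib : ∀ c : Typ V {x // x ∈ A},
        Nonempty ({j : ι // actT V {x // x ∈ A} γ (mk ((j : Finset V), G, NG)) = c} ≃
          {j : ι' // mk ((j : Finset V), H, N') = c}) := by
      intro c
      obtain ⟨x, rfl⟩ := (actT V {x // x ∈ A} γ).surjective c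
      have h1 : wt H N' L (actT V {x // x ∈ A} γ x) = wt G NG L x := hγ x
      refine ⟨Fintype.equivOfCardEq ?_⟩
      rw [cardH, h1, ← cardG]
      apply Fintype.card_congr
      apply Equiv.subtypeEquivRight
      intro j
      exact (actT V {x // x ∈ A} γ).apply_eq_iff_eq
    let tG : ι → Typ V {x // x ∈ A} := fun j => actT V {x // x ∈ A} γ (mk ((j : Finset V), G, NG))
    let tH : ι' → Typ V {x // x ∈ A} := fun j => mk ((j : Finset V), H, N')
    let β : ι ≃ ι' := Equiv.ofFiberEquiv (f := tG) (g := tH) (fun c => (hfib c).some)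
    have hβ : ∀ j : ι, mk ((β j : Finset V), H, N') =
        actT V {x // x ∈ A} γ (mk ((j : Finset V), G, NG)) :=
      fun j => Equiv.ofFiberEquiv_map (f := tG) (g := tH) _ j
    have hβ2 : ∀ j : ι, RelA γ ((j : Finset V), G, NG) ((β j : Finset V), H, N') := fun j =>
      (actT_mk γ _ _).mp (hβ j).symm
    choose σ hσ1 hσ2 hσ3 using hβ2
    simp only at hσ1 hσ2 hσ3
    let cj : ∀ x, x ∈ L → ι := fun x hx => ⟨comp G L x, comp_mem_comps G L x hx⟩
    have hcj : ∀ x hx, x ∈ ((cj x hx : ι) : Finset V) := fun x hx => comp_self G L x hx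
    let σ0 : V → V := fun x => if h : x ∈ L then σ (cj x h) x else π i0 (ρ x)
    have hσL : ∀ x (h : x ∈ L), σ0 x = σ (cj x h) x := fun x h => by simp [σ0, h]
    have hσR : ∀ x, x ∉ L → σ0 x = π i0 (ρ x) := fun x h => by simp [σ0, h]
    have hσm : ∀ x (h : x ∈ L), σ0 x ∈ ((β (cj x h) : ι') : Finset V) := fun x h => by
      rw [hσL x h, hσ1]; exact hcj x h
    have hσL' : ∀ x, x ∈ L → σ0 x ∈ L := fun x h => comps_sub H L _ (β (cj x h)).2 (hσm x h)
    have hσR' : ∀ x, x ∉ L → σ0 x ∉ L := fun x h => by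
      rw [hσR x h, hmapsL i0, hρ2]; exact h
    have hsame : ∀ x y (hx : x ∈ L) (hy : y ∈ L), σ0 y ∈ ((β (cj x hx) : ι') : Finset V) →
        cj x hx = cj y hy := by
      intro x y hx hy h
      apply β.injective
      apply Subtype.ext
      rw [← comp_of_mem H L _ (β (cj x hx)).2 _ h, ← comp_of_mem H L _ (β (cj y hy)).2 _ (hσm y hy)]
    have hinj : Function.Injective σ0 := by
      intro x y hxy
      by_cases hx : x ∈ L
      · by_cases hy : y ∈ L
        · have h1 := hsame x y hx hy (hxy ▸ hσm x hx)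
          rw [hσL x hx, hσL y hy, h1] at hxy
          exact (σ _).injective hxy
        · exact absurd (hxy ▸ hσL' x hx) (hσR' y hy)
      · by_cases hy : y ∈ L
        · exact absurd (hxy ▸ hσL' y hy) (hσR' x hx)
        · rw [hσR x hx, hσR y hy] at hxy
          exact ρ.injective ((π i0).injective hxy)
    let τ : Equiv.Perm V := Equiv.ofBijective σ0 (Finite.injective_iff_bijective.mp hinj)
    have hτ : ∀ x, τ x = σ0 x := fun x => rfl
    refine ⟨τ, fun x y => ?_⟩
    rw [hτ, hτ]
    have hmix : ∀ x y, x ∈ L → y ∉ L → (H.Adj (σ0 x) (σ0 y) ↔ G.Adj x y) := by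
      intro x y hx hy
      have hyA : y ∈ A := hAL y hy
      have h2 : NH (σ0 x) = actF _ (α i0) (actF _ γ (NG x)) := by
        rw [hN' (σ0 x), hσL x hx, hσ3 (cj x hx) x (hcj x hx)]
      have h3 : σ0 y = ((α i0 (γ ⟨y, hyA⟩) : {x // x ∈ A}) : V) := by
        rw [hσR y hy, hα, ← hρ1]
      rw [h3, ← hNH, h2, mem_actF, mem_actF, hNG]
    by_cases hx : x ∈ L
    · by_cases hy : y ∈ L
      · by_cases hc : cj x hx = cj y hy
        · rw [hσL x hx, hσL y hy, ← hc]
          exact hσ2 (cj x hx) x y (hcj x hx) (hc ▸ hcj y hy)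
        · constructor
          · intro h
            exact absurd (hsame x y hx hy (comp_closed H L _ (β (cj x hx)).2 _ _ (hσm x hx)
              (hσL' y hy) h)) hc
          · intro h
            exfalso
            apply hc
            have h1 := comp_closed G L _ (cj x hx).2 x y (hcj x hx) hy h
            apply Subtype.ext
            exact (comp_of_mem G L _ (cj x hx).2 y h1).symm
      · exact hmix x y hx hy
    · by_cases hy : y ∈ L
      · rw [H.adj_comm, G.adj_comm]
        exact hmix y x hy hx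
      · rw [hσR x hx, hσR y hy]
        have hx1 : ρ x ∉ L := fun h => hx ((hρ2 x).mp h)
        have hy1 : ρ y ∉ L := fun h => hy ((hρ2 y).mp h)
        have hx2 : ρ x ≠ i0 := fun h => hx1 (by rw [h]; exact hi0)
        have hy2 : ρ y ≠ i0 := fun h => hy1 (by rw [h]; exact hi0)
        rw [hH.adj i0 _ _ hx2 hy2]
        exact hρ3 x y hx hy
  obtain ⟨s, hs1, hs2⟩ := main_bound φ N (by omega) w w' (by omega) (by omega) hk t t' g hrel2 hneq
  refine ⟨s, hs1, hs2.trans ?_⟩
  rw [← Nat.card_eq_fintype_card]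


end Pool.Agent.Y400.Rec
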