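import Pool.Agent.Y400.Rec.Path

set_option autoImplicit false
set_option linter.unusedSectionVars false

/-! The bounds for paths and for isomorphism closed families. -/

namespace Pool.Agent.Y400.Rec

open Finset Classical
open Pool.Agent.H234RC (Hypo NonIso Reconstructible)
open Pool.Agent.TH87.RVE (rch RR comp comps comps_sub comps_nonempty mem_comps mem_comp comp_of_mem
  comp_closed comp_closed_eq rch_closed rch_symm rch_trans comp_mem_comps comp_self rec_of)

variable {V : Type} [Fintype V]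

/-- the bound for components with a longest path -/
theorem path_bound {G H : SimpleGraph V} {π : V → Equiv.Perm V} (hH : Hypo G H π)
    (hN : NonIso G H) (Z : Finset V) (p t : ℕ) (hp : 1 ≤ p)
    (hZ : ∀ l, PL G Zᶜ l → l.length ≠ p + 1) (𝒟 : Finset (Finset V)) (h𝒟 : 𝒟 ⊆ comps G Zᶜ)
    (hP : ∀ D ∈ 𝒟, ∃ P, PL G D P ∧ P.length = p)
    (ht : 2 * (Z.card.factorial : ℝ) < (3 / 2 : ℝ) ^ t) :
    𝒟.card < t ^ 2 + Z.card * (2 * (3 * Z.card + 1)) := by
  refine many_bound hH hN (HP G (p + 1)) (HP H (p + 1)) (HP_iso hH (p + 1)) Z ?_ 2 t 𝒟 h𝒟 ?_ ht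
  · rintro P ⟨l, h1, h2, rfl⟩
    by_contra hcon
    push Not at hcon
    apply hZ l ⟨h1.nodup, h1.chain, fun x hx => ?_⟩ h2
    rw [mem_compl]
    exact hcon x (List.mem_toFinset.mpr hx)
  · intro x hx ℰ hℰ hc hadj
    rw [card_eq_two] at hc
    obtain ⟨D, D', hne, rfl⟩ := hc
    have hD : D ∈ 𝒟 := hℰ (by simp)
    have hD' : D' ∈ 𝒟 := hℰ (by simp)
    obtain ⟨y, hy, hxy⟩ := hadj D (by simp)
    obtain ⟨y', hy', hxy'⟩ := hadj D' (by simp)
    obtain ⟨P, hP1, hP2⟩ := hP D hD
    obtain ⟨P', hP1', hP2'⟩ := hP D' hD'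
    obtain ⟨R, h1, h2, h3, h4⟩ := through G Z x hx D D' (h𝒟 hD) (h𝒟 hD') hne p hp P P' hP1 hP1'
      hP2 hP2' y y' hy hy' hxy hxy'
    refine ⟨R, h1, h2, ?_, h4⟩
    have : ({D, D'} : Finset (Finset V)).biUnion id = D ∪ D' := by
      ext a
      simp
    rw [this]
    exact h3

theorem fact_lt (z : ℕ) : 2 * (z.factorial : ℝ) < (3 / 2 : ℝ) ^ (z ^ 2 + 2) := by
  induction z with
  | zero => norm_num
  | succ z ih =>
    have h1 : (z + 1) ^ 2 + 2 = (z ^ 2 + 2) + (2 * z + 1) := by ring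
    rw [h1, pow_add, Nat.factorial_succ]
    have h2 : ((z : ℝ) + 1) ≤ (3 / 2 : ℝ) ^ (2 * z + 1) := by
      have h3 := one_add_mul_le_pow (show (-2 : ℝ) ≤ 1 / 2 by norm_num) (2 * z + 1)
      have h4 : (1 + 1 / 2 : ℝ) = 3 / 2 := by norm_num
      rw [h4] at h3
      push_cast at h3
      linarith [h3]
    have h5 : (0 : ℝ) < (z : ℝ) + 1 := by positivity
    push_cast
    calc 2 * (((z : ℝ) + 1) * (z.factorial : ℝ)) = (2 * (z.factorial : ℝ)) * ((z : ℝ) + 1) := by ring
      _ < (3 / 2 : ℝ) ^ (z ^ 2 + 2) * ((z : ℝ) + 1) := mul_lt_mul_of_pos_right ih h5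
      _ ≤ (3 / 2 : ℝ) ^ (z ^ 2 + 2) * (3 / 2 : ℝ) ^ (2 * z + 1) :=
          mul_le_mul_of_nonneg_left h2 (by positivity)

/-- from a set which meets the paths with `p + 1` vertices to a set which meets the paths with
`p` vertices -/
theorem hit_step {G H : SimpleGraph V} {π : V → Equiv.Perm V} (hH : Hypo G H π)
    (hN : NonIso G H) (Z : Finset V) (p k : ℕ) (hp : 1 ≤ p) (hpk : p ≤ k)
    (hZ : ∀ l, PL G Zᶜ l → l.length ≠ p + 1) :
    ∃ Z' : Finset V, (∀ l, PL G Z'ᶜ l → l.length ≠ p) ∧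
      Z'.card + 2 ≤ (k + 1) * (Z.card + 2) ^ 4 := by
  set 𝒟 := (comps G Zᶜ).filter (fun D => ∃ P, PL G D P ∧ P.length = p) with h𝒟
  have hb := path_bound hH hN Z p (Z.card ^ 2 + 2) hp hZ 𝒟 (filter_subset _ _)
    (fun D hD => (mem_filter.mp hD).2) (fact_lt _)
  have hch : ∀ D : Finset V, ∃ P : List V, D ∈ 𝒟 → PL G D P ∧ P.length = p := by
    intro D
    by_cases hD : D ∈ 𝒟
    · obtain ⟨P, hP⟩ := (mem_filter.mp hD).2
      exact ⟨P, fun _ => hP⟩
    · exact ⟨[], fun h => absurd h hD⟩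
  choose f hf using hch
  refine ⟨Z ∪ 𝒟.biUnion (fun D => (f D).toFinset), ?_, ?_⟩
  · intro l hl hlen
    -- `l` avoids `Z`, so it lies in a component
    have hlZ : PL G Zᶜ l := hl.mono (by
      rw [compl_subset_compl]
      exact subset_union_left)
    have hpos : 0 < l.length := by omega
    obtain ⟨a, ha⟩ := List.exists_mem_of_length_pos hpos
    cases hl' : l with
    | nil => rw [hl'] at hpos; simp at hpos
    | cons b l' =>
      have hb' : b ∈ Zᶜ := hlZ.sub b (by rw [hl']; simp)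
      set D := comp G Zᶜ b with hD
      have hDc : D ∈ comps G Zᶜ := comp_mem_comps G _ b hb'
      have hlD : ∀ x ∈ l, x ∈ D := by
        apply chain_comp G Zᶜ D hDc l hlZ
        intro x hx
        rw [hl'] at hx
        have : b = x := by simpa using hx
        rw [← this]
        exact comp_self G _ b hb'
      have hDD : D ∈ 𝒟 := mem_filter.mpr ⟨hDc, l, ⟨hl.nodup, hl.chain, hlD⟩, hlen⟩
      obtain ⟨h1, h2⟩ := hf D hDD
      have hDZ : D ⊆ Zᶜ := comps_sub G _ D hDc
      have hpos' : 0 < (f D).length := by omega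
      obtain ⟨q, hq⟩ := List.exists_mem_of_length_pos hpos'
      have hreach : rch G Zᶜ b q := by
        have := h1.sub q hq
        rw [hD, mem_comp] at this
        exact this.2
      obtain ⟨m, hm1, hm2⟩ := two_paths hlZ (h1.mono hDZ) (by
        intro x hx hxf
        have := hl.sub x hx
        rw [mem_compl, mem_union, mem_biUnion] at this
        apply this
        right
        exact ⟨D, hDD, List.mem_toFinset.mpr hxf⟩) (by omega) b q (by rw [hl']; simp) hq hreach
      exact hZ m hm1 (by omega)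
  · have h1 : (𝒟.biUnion (fun D => (f D).toFinset)).card ≤ 𝒟.card * p := by
      apply card_biUnion_le_card_mul
      intro D hD
      rw [List.toFinset_card_of_nodup (hf D hD).1.nodup, (hf D hD).2]
    have h2 := card_union_le Z (𝒟.biUnion (fun D => (f D).toFinset))
    set z := Z.card with hz
    have h3 : 𝒟.card * p ≤ 𝒟.card * k := Nat.mul_le_mul_left _ hpk
    have h4 : 𝒟.card ≤ (z + 2) ^ 4 := by
      have h5 : (z ^ 2 + 2) ^ 2 + z * (2 * (3 * z + 1)) ≤ (z + 2) ^ 4 := by
        nlinarith [Nat.zero_le (z ^ 3), Nat.zero_le (z ^ 2), Nat.zero_le z]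
      omega
    have h6 : 𝒟.card * k ≤ (z + 2) ^ 4 * k := Nat.mul_le_mul_right _ h4
    have h7 : z + 2 ≤ (z + 2) ^ 4 := Nat.le_self_pow (by omega) _
    have h8 : (k + 1) * (z + 2) ^ 4 = (z + 2) ^ 4 * k + (z + 2) ^ 4 := by ring
    omega

/-- graphs without long paths outside `Z0` -/
theorem long_bound {G H : SimpleGraph V} {π : V → Equiv.Perm V} (hH : Hypo G H π)
    (hN : NonIso G H) (Z0 : Finset V) (k : ℕ) (hk : ∀ l, PL G Z0ᶜ l → l.length ≠ k + 1) :
    Fintype.card V < ((k + 1) * (Z0.card + 2)) ^ (4 ^ k) := by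
  have key : ∀ i, i ≤ k → ∃ Z : Finset V, (∀ l, PL G Zᶜ l → l.length ≠ k + 1 - i) ∧
      (k + 1) * (Z.card + 2) ≤ ((k + 1) * (Z0.card + 2)) ^ (4 ^ i) := by
    intro i
    induction i with
    | zero =>
      intro _
      refine ⟨Z0, hk, ?_⟩
      rw [pow_zero, pow_one]
    | succ i ih =>
      intro hi
      obtain ⟨Z, h1, h2⟩ := ih (by omega)
      obtain ⟨Z', h3, h4⟩ := hit_step hH hN Z (k - i) k (by omega) (by omega) (by
        intro l hl
        have := h1 l hl
        omega)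
      refine ⟨Z', ?_, ?_⟩
      · intro l hl
        have := h3 l hl
        omega
      · calc (k + 1) * (Z'.card + 2) ≤ (k + 1) * ((k + 1) * (Z.card + 2) ^ 4) :=
              Nat.mul_le_mul_left _ h4
          _ ≤ ((k + 1) * (Z.card + 2)) ^ 4 := by
              rw [mul_pow]
              have : (k + 1) * (k + 1) ≤ (k + 1) ^ 4 := by
                calc (k + 1) * (k + 1) = (k + 1) ^ 2 := by ring
                  _ ≤ (k + 1) ^ 4 := Nat.pow_le_pow_right (by omega) (by omega)
              calc (k + 1) * ((k + 1) * (Z.card + 2) ^ 4)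
                  = ((k + 1) * (k + 1)) * (Z.card + 2) ^ 4 := by ring
                _ ≤ (k + 1) ^ 4 * (Z.card + 2) ^ 4 := Nat.mul_le_mul_right _ this
          _ ≤ (((k + 1) * (Z0.card + 2)) ^ (4 ^ i)) ^ 4 := Nat.pow_le_pow_left h2 4
          _ = ((k + 1) * (Z0.card + 2)) ^ (4 ^ (i + 1)) := by rw [← pow_mul, pow_succ]
  obtain ⟨Z, h1, h2⟩ := key k le_rfl
  have hZ : Z = univ := by
    rw [eq_univ_iff_forall]
    intro x
    by_contra hx
    apply h1 [x]
    · refine ⟨by simp, by simp, ?_⟩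
      intro y hy
      rw [List.mem_singleton] at hy
      rw [hy, mem_compl]
      exact hx
    · simp
  rw [hZ, card_univ] at h2
  have h3 : 1 * (Fintype.card V + 2) ≤ (k + 1) * (Fintype.card V + 2) :=
    Nat.mul_le_mul_right _ (by omega)
  omega

end Pool.Agent.Y400.Rec
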