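import Pool.Agent.Y400.Rec.Bound

set_option autoImplicit false
set_option linter.unusedSectionVars false

/-! An abstract gap lemma: a vertex parameter which drops by at most one when a vertex is deleted
and which omits two consecutive values yields a set preserved by the card isomorphisms. -/

namespace Pool.Agent.Y400.Rec

open Finset Classical
open Pool.Agent.H234RC (Hypo NonIso)

variable {V : Type} [Fintype V]

/-- the properties of the parameter: `p S x m` means that the value of `x` in `S` is at least
`m` -/
structure Param (p : Finset V → V → ℕ → Prop) : Prop where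
  mono : ∀ S T x m, S ⊆ T → p S x m → p T x m
  anti : ∀ S x m n, n ≤ m → p S x m → p S x n
  del : ∀ x v m, v ≠ x → p univ x (m + 1) → p (univ.erase v) x m

theorem gap_set {G H : SimpleGraph V} {π : V → Equiv.Perm V} (hH : Hypo G H π)
    (p p' : Finset V → V → ℕ → Prop) (hp : Param p) (hp' : Param p')
    (hiso : ∀ v x m, x ≠ v → (p' (univ.erase v) (π v x) m ↔ p (univ.erase v) x m))
    (e : ℕ) (hgap : ∀ x, p univ x e → p univ x (e + 2)) (A : Finset V)
    (hA : ∀ x, x ∈ A ↔ p univ x (e + 1)) (hcard : A.card + 1 < Fintype.card V) :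
    ∀ v u, π v u ∈ A ↔ u ∈ A := by
  set B : Finset V := univ.filter (fun x => p' univ x (e + 1)) with hB
  have hB' : ∀ x, x ∈ B ↔ p' univ x (e + 1) := fun x => by rw [hB, mem_filter]; simp
  -- the set of a card of `G`
  have h1 : ∀ v x, x ≠ v → (p (univ.erase v) x (e + 1) ↔ x ∈ A) := by
    intro v x hx
    rw [hA]
    constructor
    · exact hp.mono _ _ _ _ (erase_subset _ _)
    · intro h
      exact hp.del x v (e + 1) hx.symm (hgap x (hp.anti _ _ _ _ (by omega) h))
  have h2 : ∀ v x, x ≠ v → p (univ.erase v) x e → p (univ.erase v) x (e + 1) := by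
    intro v x hx h
    exact hp.del x v (e + 1) hx.symm (hgap x (hp.mono _ _ _ _ (erase_subset _ _) h))
  have hinv : ∀ v x, x ≠ v → (π v).symm x ≠ v := by
    intro v x hx h
    apply hx
    have := congrArg (π v) h
    rwa [Equiv.apply_symm_apply, hH.fix] at this
  have h2' : ∀ v x, x ≠ v → p' (univ.erase v) x e → p' (univ.erase v) x (e + 1) := by
    intro v x hx h
    have h3 := hiso v ((π v).symm x) e (hinv v x hx)
    have h4 := hiso v ((π v).symm x) (e + 1) (hinv v x hx)
    rw [Equiv.apply_symm_apply] at h3 h4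
    exact h4.mpr (h2 v _ (hinv v x hx) (h3.mp h))
  -- the set of a card of `H`
  have h1' : ∀ v x, x ≠ v → (p' (univ.erase v) x (e + 1) ↔ x ∈ B) := by
    intro v x hx
    rw [hB']
    constructor
    · exact hp'.mono _ _ _ _ (erase_subset _ _)
    · intro h
      exact h2' v x hx (hp'.del x v e hx.symm h)
  have h5 : ∀ v x, x ≠ v → (π v x ∈ B ↔ x ∈ A) := by
    intro v x hx
    have hx' : π v x ≠ v := by
      intro h
      apply hx
      apply (π v).injective
      rw [h, hH.fix]
    rw [← h1 v x hx, ← h1' v _ hx', hiso v x _ hx]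
  -- cardinalities
  have h6 : ∀ v, (A.erase v).card = (B.erase v).card := by
    intro v
    apply card_bij (fun x _ => π v x)
    · intro x hx
      rw [mem_erase] at hx ⊢
      refine ⟨fun h => hx.1 ?_, (h5 v x hx.1).mpr hx.2⟩
      apply (π v).injective
      rw [h, hH.fix]
    · intro x _ y _ h
      exact (π v).injective h
    · intro y hy
      rw [mem_erase] at hy
      refine ⟨(π v).symm y, ?_, Equiv.apply_symm_apply _ _⟩
      rw [mem_erase]
      refine ⟨hinv v y hy.1, ?_⟩
      rw [← h5 v _ (hinv v y hy.1), Equiv.apply_symm_apply]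
      exact hy.2
  have hcA : ∃ x, x ∉ A := by
    by_contra hcon
    push Not at hcon
    have : A = univ := eq_univ_iff_forall.mpr hcon
    rw [this, card_univ] at hcard
    omega
  have hle : ∀ (S : Finset V) (v : V), v ∈ S → (S.erase v).card + 1 = S.card := fun S v hv =>
    card_erase_add_one hv
  have hle' : ∀ (S : Finset V) (v : V), v ∉ S → (S.erase v).card = S.card := fun S v hv => by
    rw [erase_eq_of_notMem hv]
  have hAB : A = B := by
    obtain ⟨x, hx⟩ := hcA
    have e1 := h6 x
    rw [hle' A x hx] at e1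
    have hcB : ∃ y, y ∉ B := by
      by_contra hcon
      push Not at hcon
      have h7 := hle B x (hcon x)
      have : B = univ := eq_univ_iff_forall.mpr hcon
      have h8 : B.card = Fintype.card V := by rw [this, card_univ]
      omega
    obtain ⟨y, hy⟩ := hcB
    have e2 := h6 y
    rw [hle' B y hy] at e2
    have hcc : A.card = B.card := by
      by_cases hxB : x ∈ B
      · have e3 := hle B x hxB
        by_cases hyA : y ∈ A
        · have e4 := hle A y hyA
          omega
        · rw [hle' A y hyA] at e2
          exact e2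
      · rw [hle' B x hxB] at e1
        exact e1
    ext v
    have e5 := h6 v
    by_cases hvA : v ∈ A
    · by_cases hvB : v ∈ B
      · simp [hvA, hvB]
      · have e6 := hle A v hvA
        rw [hle' B v hvB] at e5
        omega
    · by_cases hvB : v ∈ B
      · have e6 := hle B v hvB
        rw [hle' A v hvA] at e5
        omega
      · simp [hvA, hvB]
  intro v u
  by_cases huv : u = v
  · subst huv; rw [hH.fix]
  · rw [← h5 v u huv, ← hAB]

/-- the bound in terms of the parameter -/
theorem gap_bound {G H : SimpleGraph V} {π : V → Equiv.Perm V} (hH : Hypo G H π)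
    (hN : NonIso G H) (p p' : Finset V → V → ℕ → Prop) (hp : Param p) (hp' : Param p')
    (hiso : ∀ v x m, x ≠ v → (p' (univ.erase v) (π v x) m ↔ p (univ.erase v) x m))
    (e : ℕ) (hgap : ∀ x, p univ x e → p univ x (e + 2)) (A : Finset V)
    (hA : ∀ x, x ∈ A ↔ p univ x (e + 1)) (t : ℕ)
    (ht : 2 * (A.card.factorial : ℝ) < (3 / 2 : ℝ) ^ t) :
    (Pool.Agent.TH87.RVE.comps G Aᶜ).card < t ^ 2 := by
  by_contra hcon
  push Not at hcon
  have ht2 : 2 ≤ t := by
    by_contra hlt
    have h1 : (1 : ℝ) ≤ (A.card.factorial : ℝ) := by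
      exact_mod_cast Nat.succ_le_of_lt (Nat.factorial_pos _)
    have h2 : t = 0 ∨ t = 1 := by omega
    rcases h2 with rfl | rfl
    · rw [pow_zero] at ht; linarith
    · rw [pow_one] at ht; linarith
  have h4 : 4 ≤ (Pool.Agent.TH87.RVE.comps G Aᶜ).card := by nlinarith
  have h5 : (Pool.Agent.TH87.RVE.comps G Aᶜ).card ≤ Aᶜ.card := by
    unfold Pool.Agent.TH87.RVE.comps
    exact card_image_le
  have h6 : A.card + Aᶜ.card = Fintype.card V := by
    rw [card_compl]
    have := card_le_univ A
    omega
  have hmaps := gap_set hH p p' hp hp' hiso e hgap A hA (by omega)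
  have h7 := comp_bound hH hN A Aᶜ (fun v => mem_compl) hmaps
  have h8 := Pool.Agent.TH87.RVE.lt_sq _ _ h7 t (by
    refine lt_of_le_of_lt ?_ ht
    have : (Nat.card (Pool.Agent.TH87.RVC.relAut G A Aᶜ) : ℝ) ≤ (A.card.factorial : ℝ) := by
      exact_mod_cast Pool.Agent.TH87.RVE.card_relAut_le G _ _
    linarith)
  omega

end Pool.Agent.Y400.Rec
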