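import Pool.Agent.Y400.Rec.Fin

set_option autoImplicit false
set_option linter.unusedSectionVars false

/-! The final forms. -/

namespace Pool.Agent.Y400.Rec

open Finset Classical
open Pool.Agent.H234RC (Hypo NonIso Reconstructible)
open Pool.Agent.TH87.RVE (rch RR comp comps comps_sub comps_nonempty mem_comps mem_comp comp_of_mem
  comp_closed comp_closed_eq rch_closed rch_symm rch_trans comp_mem_comps comp_self rec_of)

variable {V : Type} [Fintype V]

/-- `D` is the vertex set of a component of `G - Z` -/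
def Cmp (G : SimpleGraph V) (Z D : Finset V) : Prop :=
  (G.induce (D : Set V)).Connected ∧ (∀ x ∈ D, x ∉ Z) ∧ ∀ x ∈ D, ∀ y, G.Adj x y → y ∈ D ∨ y ∈ Z

theorem rch_of_reachable (G : SimpleGraph V) (D : Finset V) (a b : {x // x ∈ (D : Set V)})
    (h : (G.induce (D : Set V)).Reachable a b) : rch G D a b := by
  rw [SimpleGraph.reachable_iff_reflTransGen] at h
  induction h with
  | refl => exact Relation.ReflTransGen.refl
  | tail h1 h2 ih =>
    exact Relation.ReflTransGen.tail ih ⟨Finset.mem_coe.mp (Subtype.property _),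
      Finset.mem_coe.mp (Subtype.property _), h2⟩

theorem reachable_of_rch (G : SimpleGraph V) (D : Finset V) (a b : V) (ha : a ∈ (D : Set V))
    (h : rch G D a b) : ∃ hb : b ∈ (D : Set V), (G.induce (D : Set V)).Reachable ⟨a, ha⟩ ⟨b, hb⟩ := by
  induction h with
  | refl => exact ⟨ha, SimpleGraph.Reachable.refl _⟩
  | tail h1 h2 ih =>
    obtain ⟨hb, h3⟩ := ih
    refine ⟨Finset.mem_coe.mpr h2.2.1, h3.trans (SimpleGraph.Adj.reachable ?_)⟩
    exact h2.2.2

theorem cmp_mem (G : SimpleGraph V) (Z D : Finset V) (h : Cmp G Z D) : D ∈ comps G Zᶜ := by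
  obtain ⟨h1, h2, h3⟩ := h
  obtain ⟨⟨x, hx⟩⟩ := h1.nonempty
  have hx' : x ∈ D := Finset.mem_coe.mp hx
  have hDZ : D ⊆ Zᶜ := fun y hy => mem_compl.mpr (h2 y hy)
  have hcl : ∀ x ∈ D, ∀ y ∈ Zᶜ, G.Adj x y → y ∈ D := by
    intro a ha y hy hadj
    rcases h3 a ha y hadj with h | h
    · exact h
    · exact absurd h (mem_compl.mp hy)
  rw [mem_comps]
  refine ⟨x, hDZ hx', ?_⟩
  rw [comp_closed_eq G Zᶜ D hDZ hcl x hx']
  ext y
  rw [mem_comp]
  constructor
  · exact fun h => h.1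
  · intro hy
    exact ⟨hy, rch_of_reachable G D ⟨x, hx⟩ ⟨y, Finset.mem_coe.mpr hy⟩ (h1.preconnected _ _)⟩

theorem mem_cmp (G : SimpleGraph V) (Z D : Finset V) (h : D ∈ comps G Zᶜ) : Cmp G Z D := by
  have hs := comps_sub G _ D h
  refine ⟨?_, fun x hx => mem_compl.mp (hs hx), ?_⟩
  · obtain ⟨x, hx⟩ := comps_nonempty G _ D h
    have : Nonempty {x // x ∈ (D : Set V)} := ⟨⟨x, Finset.mem_coe.mpr hx⟩⟩
    refine SimpleGraph.Connected.mk ?_
    rintro ⟨a, ha⟩ ⟨b, hb⟩
    have ha' : a ∈ D := Finset.mem_coe.mp ha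
    have hb' : b ∈ D := Finset.mem_coe.mp hb
    have h1 : b ∈ comp G Zᶜ a := by rw [comp_of_mem G _ D h a ha']; exact hb'
    have h2 := (rch_closed G Zᶜ D (fun x hx y hy h' => comp_closed G _ D h x y hx hy h') ha'
      ((mem_comp G _ _ _).mp h1).2).2
    obtain ⟨_, h3⟩ := reachable_of_rch G D a b ha h2
    exact h3
  · intro x hx y hadj
    by_cases hy : y ∈ Z
    · exact Or.inr hy
    · exact Or.inl (comp_closed G _ D h x y hx (mem_compl.mpr hy) hadj)

theorem ind_iso (G H : SimpleGraph V) (σ : Equiv.Perm V) (P : Finset V)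
    (h : ∀ x ∈ P, ∀ y ∈ P, (H.Adj (σ x) (σ y) ↔ G.Adj x y)) :
    Nonempty (G.induce (P : Set V) ≃g H.induce ((P.map σ.toEmbedding : Finset V) : Set V)) := by
  refine ⟨{ toEquiv := σ.subtypeEquiv (fun a => by simp), map_rel_iff' := ?_ }⟩
  rintro ⟨a, ha⟩ ⟨b, hb⟩
  exact h a (Finset.mem_coe.mp ha) b (Finset.mem_coe.mp hb)

/-- the bound for isomorphism closed families -/
theorem fam_bound {G H : SimpleGraph V} {π : V → Equiv.Perm V} (hH : Hypo G H π)
    (hN : NonIso G H) (F : (U : Type) → SimpleGraph U → Prop)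
    (hF : ∀ (U U' : Type) (K : SimpleGraph U) (K' : SimpleGraph U'), F U K →
      Nonempty (K ≃g K') → F U' K')
    (Z : Finset V) (𝒟 : Finset (Finset V)) (r t : ℕ) (h𝒟 : ∀ D ∈ 𝒟, Cmp G Z D)
    (hZ : ∀ P : Finset V, F {x // x ∈ (P : Set V)} (G.induce (P : Set V)) → ∃ x ∈ P, x ∈ Z)
    (hx : ∀ x ∈ Z, ∀ ℰ, ℰ ⊆ 𝒟 → ℰ.card = r → (∀ D ∈ ℰ, ∃ y ∈ D, G.Adj x y) →
      ∃ P : Finset V, x ∈ P ∧ P ⊆ insert x (ℰ.biUnion id) ∧
        F {x // x ∈ (P : Set V)} (G.induce (P : Set V)))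
    (ht : 2 * (Z.card.factorial : ℝ) < (3 / 2 : ℝ) ^ t) :
    𝒟.card < t ^ 2 + Z.card * (r * (3 * Z.card + 1)) := by
  have hsub : 𝒟 ⊆ comps G Zᶜ := fun D hD => cmp_mem G Z D (h𝒟 D hD)
  by_cases hall : ∃ v, v ∉ Z
  · obtain ⟨v, hv⟩ := hall
    refine many_bound hH hN (fun P => F _ (G.induce (P : Set V)))
      (fun P => F _ (H.induce (P : Set V))) ?_ Z hZ r t 𝒟 hsub ?_ ht
    · intro v P hv
      have hne : ∀ x ∈ P, x ≠ v := fun x hx h => hv (h ▸ hx)
      obtain ⟨f⟩ := ind_iso G H (π v) P (fun x hx y hy => hH.adj v x y (hne x hx) (hne y hy))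
      exact ⟨fun h => hF _ _ _ _ h ⟨f.symm⟩, fun h => hF _ _ _ _ h ⟨f⟩⟩
    · intro x hxZ ℰ h1 h2 h3
      obtain ⟨P, h4, h5, h6⟩ := hx x hxZ ℰ h1 h2 h3
      refine ⟨P, h4, ?_, h5, h6⟩
      rintro rfl
      obtain ⟨f⟩ := ind_iso G G (Equiv.swap x v) {x} (by
        intro a ha b hb
        rw [mem_singleton] at ha hb
        subst ha hb
        simp)
      have h7 := hF _ _ _ _ h6 ⟨f⟩
      obtain ⟨y, hy, hyZ⟩ := hZ _ h7
      rw [mem_map] at hy
      obtain ⟨a, ha, rfl⟩ := hy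
      rw [mem_singleton] at ha
      subst ha
      apply hv
      simpa using hyZ
  · push Not at hall
    have h1 : 𝒟 = ∅ := by
      rw [eq_empty_iff_forall_notMem]
      intro D hD
      obtain ⟨⟨x, hx⟩⟩ := (h𝒟 D hD).1.nonempty
      exact (h𝒟 D hD).2.1 x (Finset.mem_coe.mp hx) (hall x)
    rw [h1, card_empty]
    have ht0 : 0 < t := by
      rcases Nat.eq_zero_or_pos t with h | h
      · rw [h, pow_zero] at ht
        have h1 : (1 : ℝ) ≤ (Z.card.factorial : ℝ) := by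
          exact_mod_cast Nat.succ_le_of_lt (Nat.factorial_pos _)
        linarith
      · exact h
    positivity

/-- (A) isomorphism closed families -/
theorem fam_form (G : SimpleGraph V) (F : (U : Type) → SimpleGraph U → Prop)
    (hF : ∀ (U U' : Type) (K : SimpleGraph U) (K' : SimpleGraph U'), F U K →
      Nonempty (K ≃g K') → F U' K')
    (Z : Finset V) (𝒟 : Finset (Finset V)) (r t : ℕ) (h𝒟 : ∀ D ∈ 𝒟, Cmp G Z D)
    (hZ : ∀ P : Finset V, F {x // x ∈ (P : Set V)} (G.induce (P : Set V)) → ∃ x ∈ P, x ∈ Z)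
    (hx : ∀ x ∈ Z, ∀ ℰ, ℰ ⊆ 𝒟 → ℰ.card = r → (∀ D ∈ ℰ, ∃ y ∈ D, G.Adj x y) →
      ∃ P : Finset V, x ∈ P ∧ P ⊆ insert x (ℰ.biUnion id) ∧
        F {x // x ∈ (P : Set V)} (G.induce (P : Set V)))
    (ht : 2 * (Z.card.factorial : ℝ) < (3 / 2 : ℝ) ^ t)
    (hm : t ^ 2 + Z.card * (r * (3 * Z.card + 1)) ≤ 𝒟.card) :
    Reconstructible G ∧ Reconstructible Gᶜ :=
  rec_of G _ (fun _ _ hH hN => not_le.mpr (fam_bound hH hN F hF Z 𝒟 r t h𝒟 hZ hx ht)) hm

/-- a connected set which avoids `Z` lies in a component -/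
theorem conn_sub (G : SimpleGraph V) (Z P : Finset V) (hP : (G.induce (P : Set V)).Connected)
    (hPZ : ∀ x ∈ P, x ∉ Z) : ∃ D, Cmp G Z D ∧ P ⊆ D := by
  obtain ⟨⟨x, hx⟩⟩ := hP.nonempty
  have hx' : x ∈ P := Finset.mem_coe.mp hx
  have hxZ : x ∈ Zᶜ := mem_compl.mpr (hPZ x hx')
  refine ⟨comp G Zᶜ x, mem_cmp G Z _ (comp_mem_comps G _ x hxZ), ?_⟩
  intro y hy
  rw [mem_comp]
  refine ⟨mem_compl.mpr (hPZ y hy), ?_⟩
  have h1 := rch_of_reachable G P ⟨x, hx⟩ ⟨y, Finset.mem_coe.mpr hy⟩ (hP.preconnected _ _)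
  exact Pool.Agent.TH87.RVE.rch_mono G P Zᶜ (fun z hz => mem_compl.mpr (hPZ z hz)) h1

/-- (B) the order of the components -/
theorem order_form (G : SimpleGraph V) (Z : Finset V) (𝒟 : Finset (Finset V)) (r s t : ℕ)
    (h𝒟 : ∀ D ∈ 𝒟, Cmp G Z D) (hs : ∀ D, Cmp G Z D → D.card ≤ s)
    (hr : ∀ D ∈ 𝒟, s ≤ r * D.card)
    (ht : 2 * (Z.card.factorial : ℝ) < (3 / 2 : ℝ) ^ t)
    (hm : t ^ 2 + Z.card * (r * (3 * Z.card + 1)) ≤ 𝒟.card) :
    Reconstructible G ∧ Reconstructible Gᶜ := by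
  refine fam_form G (fun U K => K.Connected ∧ s < Nat.card U) ?_ Z 𝒟 r t h𝒟 ?_ ?_ ht hm
  · rintro U U' K K' ⟨h1, h2⟩ ⟨f⟩
    exact ⟨f.connected_iff.mp h1, by rwa [← Nat.card_congr f.toEquiv]⟩
  · rintro P ⟨h1, h2⟩
    by_contra hcon
    push Not at hcon
    obtain ⟨D, hD, hPD⟩ := conn_sub G Z P h1 hcon
    have h3 := hs D hD
    have h4 := card_le_card hPD
    have h5 : Nat.card {x // x ∈ (P : Set V)} = P.card := by simp
    omega
  · intro x hxZ ℰ hℰ hc hadj
    have hPc : ∀ a, a ∈ insert x (ℰ.biUnion id) ↔ a = x ∨ ∃ D ∈ ℰ, a ∈ D := by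
      intro a
      rw [mem_insert, mem_biUnion]
      rfl
    refine ⟨insert x (ℰ.biUnion id), mem_insert_self _ _, le_rfl, ?_, ?_⟩
    · have hne : Nonempty {y // y ∈ ((insert x (ℰ.biUnion id) : Finset V) : Set V)} :=
        ⟨⟨x, Finset.mem_coe.mpr (mem_insert_self _ _)⟩⟩
      have key : ∀ a, a ∈ insert x (ℰ.biUnion id) → rch G (insert x (ℰ.biUnion id)) x a := by
        intro a ha
        rcases (hPc a).mp ha with rfl | ⟨D, hD, haD⟩
        · exact Relation.ReflTransGen.refl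
        · obtain ⟨y, hy, hxy⟩ := hadj D hD
          have hDP : D ⊆ insert x (ℰ.biUnion id) := by
            intro b hb
            exact (hPc b).mpr (Or.inr ⟨D, hD, hb⟩)
          refine rch_trans G _ (Relation.ReflTransGen.single
            ⟨mem_insert_self _ _, hDP hy, hxy⟩) ?_
          apply Pool.Agent.TH87.RVE.rch_mono G D _ hDP
          exact rch_of_reachable G D ⟨y, Finset.mem_coe.mpr hy⟩ ⟨a, Finset.mem_coe.mpr haD⟩
            ((h𝒟 D (hℰ hD)).1.preconnected _ _)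
      refine SimpleGraph.Connected.mk ?_
      rintro ⟨a, ha⟩ ⟨b, hb⟩
      have h1 := rch_trans G _ (rch_symm G _ (key a (Finset.mem_coe.mp ha)))
        (key b (Finset.mem_coe.mp hb))
      obtain ⟨_, h2⟩ := reachable_of_rch G _ a b ha h1
      exact h2
    · have h5 : Nat.card {y // y ∈ ((insert x (ℰ.biUnion id) : Finset V) : Set V)} =
          (insert x (ℰ.biUnion id)).card := by
        rw [← Set.ncard_coe_finset]
        rfl
      rw [h5]
      have hxn : x ∉ ℰ.biUnion id := by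
        intro h
        obtain ⟨D, hD, hxD⟩ := mem_biUnion.mp h
        exact (h𝒟 D (hℰ hD)).2.1 x hxD hxZ
      rw [card_insert_of_notMem hxn]
      have hdisj : ∀ C ∈ ℰ, ∀ D ∈ ℰ, C ≠ D → Disjoint (id C) (id D) := by
        intro C hC D hD hne
        rw [Finset.disjoint_left]
        intro y hyC hyD
        apply hne
        rw [← comp_of_mem G _ C (cmp_mem G Z C (h𝒟 C (hℰ hC))) y hyC,
          ← comp_of_mem G _ D (cmp_mem G Z D (h𝒟 D (hℰ hD))) y hyD]
      rw [card_biUnion hdisj]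
      -- `r * sum >= r * s`, so `sum >= s`
      by_contra hlt
      push Not at hlt
      have h6 : ∑ D ∈ ℰ, s ≤ ∑ D ∈ ℰ, r * D.card := sum_le_sum (fun D hD => hr D (hℰ hD))
      rw [sum_const, smul_eq_mul, hc, ← mul_sum] at h6
      simp only [id] at hlt
      rcases Nat.eq_zero_or_pos r with h0 | h0
      · subst h0
        have h7 : ℰ = ∅ := card_eq_zero.mp hc
        rw [h7, sum_empty] at hlt
        -- `s >= 1`, but then no component
        have ht0 : 0 < t := by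
          rcases Nat.eq_zero_or_pos t with h | h
          · rw [h, pow_zero] at ht
            have h1 : (1 : ℝ) ≤ (Z.card.factorial : ℝ) := by
              exact_mod_cast Nat.succ_le_of_lt (Nat.factorial_pos _)
            linarith
          · exact h
        have h8 : 0 < 𝒟.card := by
          have : 0 < t ^ 2 := by positivity
          omega
        obtain ⟨D, hD⟩ := card_pos.mp h8
        have h9 := hr D hD
        omega
      · have h7 : s ≤ ∑ D ∈ ℰ, D.card := Nat.le_of_mul_le_mul_left h6 h0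
        omega

theorem PL_of_walk {G : SimpleGraph V} {S : Finset V} {u v : V} (w : G.Walk u v) (hw : w.IsPath)
    (hS : ∀ x ∈ w.support, x ∈ S) : PL G S w.support ∧ w.support.length = w.length + 1 :=
  ⟨⟨hw.support_nodup, w.isChain_adj_support, hS⟩, w.length_support⟩

theorem walk_of_PL {G : SimpleGraph V} {S : Finset V} (l : List V) (hl : PL G S l)
    (hne : l ≠ []) : ∃ (u v : V) (w : G.Walk u v), w.IsPath ∧ w.support = l := by
  refine ⟨_, _, SimpleGraph.Walk.ofSupport l hne hl.chain, ?_,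
    SimpleGraph.Walk.support_ofSupport hne hl.chain⟩
  rw [SimpleGraph.Walk.isPath_def, SimpleGraph.Walk.support_ofSupport]
  exact hl.nodup

/-- (C) longest paths -/
theorem path_form (G : SimpleGraph V) (Z : Finset V) (𝒟 : Finset (Finset V)) (p t : ℕ)
    (h𝒟 : ∀ D ∈ 𝒟, Cmp G Z D)
    (hp : ∀ (u v : V) (w : G.Walk u v), w.IsPath → (∀ x ∈ w.support, x ∉ Z) → w.length < p)
    (hD : ∀ D ∈ 𝒟, ∃ (u v : V) (w : G.Walk u v), w.IsPath ∧ (∀ x ∈ w.support, x ∈ D) ∧
      w.length + 1 = p)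
    (ht : 2 * (Z.card.factorial : ℝ) < (3 / 2 : ℝ) ^ t)
    (hm : t ^ 2 + Z.card * (2 * (3 * Z.card + 1)) ≤ 𝒟.card) :
    Reconstructible G ∧ Reconstructible Gᶜ := by
  have ht0 : 0 < t := by
    rcases Nat.eq_zero_or_pos t with h | h
    · rw [h, pow_zero] at ht
      have h1 : (1 : ℝ) ≤ (Z.card.factorial : ℝ) := by
        exact_mod_cast Nat.succ_le_of_lt (Nat.factorial_pos _)
      linarith
    · exact h
  have h8 : 0 < 𝒟.card := by
    have : 0 < t ^ 2 := by positivity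
    omega
  obtain ⟨D0, hD0⟩ := card_pos.mp h8
  have hp1 : 1 ≤ p := by
    obtain ⟨_, _, w, _, _, h3⟩ := hD D0 hD0
    omega
  refine rec_of G _ (fun H π hH hN => not_le.mpr ?_) hm
  refine path_bound hH hN Z p t hp1 ?_ 𝒟 (fun D hD => cmp_mem G Z D (h𝒟 D hD)) ?_ ht
  · intro l hl hlen
    have hne : l ≠ [] := by
      rintro rfl
      simp at hlen
    obtain ⟨u, v, w, hw, hsup⟩ := walk_of_PL l hl hne
    have h1 := hp u v w hw (by
      intro x hx
      rw [hsup] at hx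
      exact mem_compl.mp (hl.sub x hx))
    have h2 := w.length_support
    rw [hsup] at h2
    omega
  · intro D hDD
    obtain ⟨u, v, w, hw, h1, h2⟩ := hD D hDD
    obtain ⟨h3, h4⟩ := PL_of_walk w hw h1
    exact ⟨w.support, h3, by omega⟩

/-- (D) graphs without long paths outside `Z` -/
theorem long_form (G : SimpleGraph V) (Z : Finset V) (k : ℕ)
    (hk : ∀ (u v : V) (w : G.Walk u v), w.IsPath → (∀ x ∈ w.support, x ∉ Z) → w.length < k)
    (hm : ((k + 1) * (Z.card + 2)) ^ (4 ^ k) ≤ Fintype.card V) :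
    Reconstructible G ∧ Reconstructible Gᶜ := by
  refine rec_of G _ (fun H π hH hN => not_le.mpr ?_) hm
  apply long_bound hH hN Z k
  intro l hl hlen
  have hne : l ≠ [] := by
    rintro rfl
    simp at hlen
  obtain ⟨u, v, w, hw, hsup⟩ := walk_of_PL l hl hne
  have h1 := hk u v w hw (by
    intro x hx
    rw [hsup] at hx
    exact mem_compl.mp (hl.sub x hx))
  have h2 := w.length_support
  rw [hsup] at h2
  omega

end Pool.Agent.Y400.Rec
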