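import Pool.Agent.Y400.Rec.Petal

set_option autoImplicit false
set_option linter.unusedSectionVars false

/-! Paths: two disjoint longest paths do not lie in the same component. -/

namespace Pool.Agent.Y400.Rec

open Finset Classical
open Pool.Agent.H234RC (Hypo NonIso)
open Pool.Agent.TH87.RVE (rch RR comp comps comps_sub comps_nonempty mem_comps mem_comp comp_of_mem
  comp_closed comp_closed_eq rch_closed rch_symm rch_trans comp_mem_comps comp_self)

variable {V : Type} [Fintype V]

/-- `l` is the vertex sequence of a path inside `S` -/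
structure PL (G : SimpleGraph V) (S : Finset V) (l : List V) : Prop where
  nodup : l.Nodup
  chain : l.IsChain G.Adj
  sub : ∀ x ∈ l, x ∈ S

theorem PL.mono {G : SimpleGraph V} {S T : Finset V} {l : List V} (h : PL G S l) (hST : S ⊆ T) :
    PL G T l := ⟨h.nodup, h.chain, fun x hx => hST (h.sub x hx)⟩

theorem PL.part {G : SimpleGraph V} {S : Finset V} {l l' : List V} (h : PL G S l)
    (h' : ∃ a b, a ++ l' ++ b = l) : PL G S l' := by
  obtain ⟨a, b, rfl⟩ := h'
  exact ⟨(List.nodup_append'.mp (List.nodup_append'.mp h.nodup).1).2.1,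
    h.chain.left_of_append.right_of_append, fun x hx => h.sub x (by simp [hx])⟩

theorem PL.takeP {G : SimpleGraph V} {S : Finset V} {l : List V} (h : PL G S l) (n : ℕ) :
    PL G S (l.take n) := h.part ⟨[], l.drop n, by simp⟩

theorem PL.reverse {G : SimpleGraph V} {S : Finset V} {l : List V} (h : PL G S l) :
    PL G S l.reverse := by
  refine ⟨List.nodup_reverse.mpr h.nodup, ?_, fun x hx => h.sub x (List.mem_reverse.mp hx)⟩
  rw [List.isChain_reverse]
  exact h.chain.imp (fun a b hab => hab.symm)

theorem PL.append {G : SimpleGraph V} {S : Finset V} {l l' : List V} (h : PL G S l)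
    (h' : PL G S l') (hd : ∀ x ∈ l, x ∉ l')
    (hj : ∀ x ∈ l.getLast?, ∀ y ∈ l'.head?, G.Adj x y) : PL G S (l ++ l') := by
  refine ⟨?_, h.chain.append h'.chain hj, ?_⟩
  · rw [List.nodup_append']
    exact ⟨h.nodup, h'.nodup, fun x hx hx' => hd x hx hx'⟩
  · intro x hx
    rcases List.mem_append.mp hx with hx | hx
    · exact h.sub x hx
    · exact h'.sub x hx

/-- a path starting at `z` with at least half of the vertices of `P` -/
theorem half {G : SimpleGraph V} {S : Finset V} {P : List V} (hP : PL G S P) (z : V) (hz : z ∈ P) :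
    ∃ l : List V, l.head? = some z ∧ PL G S l ∧ (∀ x ∈ l, x ∈ P) ∧ P.length + 1 ≤ 2 * l.length := by
  obtain ⟨a, b, rfl⟩ := List.append_of_mem hz
  by_cases hab : a.length ≤ b.length
  · refine ⟨z :: b, rfl, hP.part ⟨a, [], by simp⟩, ?_, ?_⟩
    · intro x hx
      exact List.mem_append.mpr (Or.inr hx)
    · simp only [List.length_append, List.length_cons]
      omega
  · refine ⟨(a ++ [z]).reverse, by simp, ?_, ?_, ?_⟩
    · apply PL.reverse
      apply hP.part
      exact ⟨[], b, by simp⟩
    · intro x hx
      rw [List.mem_reverse] at hx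
      simp only [List.mem_append, List.mem_cons, List.not_mem_nil, or_false] at hx ⊢
      tauto
    · simp only [List.length_append, List.length_cons, List.length_reverse, List.length_nil]
      omega

/-- a path starting at `y` which ends with a large part of `P` -/
def Good (G : SimpleGraph V) (S : Finset V) (P : List V) (y : V) : Prop :=
  ∃ l1 l2 : List V, (l1 ++ l2).head? = some y ∧ PL G S (l1 ++ l2) ∧ (∀ x ∈ l2, x ∈ P) ∧
    (∀ x ∈ l1, x ∉ P) ∧ P.length + 1 ≤ 2 * l2.length

theorem good_of_mem {G : SimpleGraph V} {S : Finset V} {P : List V} (hP : PL G S P) (z : V)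
    (hz : z ∈ P) : Good G S P z := by
  obtain ⟨l, h1, h2, h3, h4⟩ := half hP z hz
  exact ⟨[], l, by simpa using h1, by simpa using h2, h3, by simp, h4⟩

theorem good_step {G : SimpleGraph V} {S : Finset V} {P : List V} (hP : PL G S P) (y z : V)
    (hy : Good G S P y) (hz : z ∈ S) (hyz : G.Adj y z) : Good G S P z := by
  by_cases hzP : z ∈ P
  · exact good_of_mem hP z hzP
  obtain ⟨l1, l2, h1, h2, h3, h4, h5⟩ := hy
  by_cases hz1 : z ∈ l1
  · obtain ⟨a, b, rfl⟩ := List.append_of_mem hz1
    refine ⟨z :: b, l2, rfl, h2.part ⟨a, [], by simp⟩, h3, ?_, h5⟩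
    intro x hx
    exact h4 x (List.mem_append.mpr (Or.inr hx))
  · refine ⟨z :: l1, l2, rfl, ?_, h3, ?_, h5⟩
    · refine ⟨?_, ?_, ?_⟩
      · rw [List.cons_append, List.nodup_cons]
        refine ⟨?_, h2.nodup⟩
        rw [List.mem_append]
        rintro (h | h)
        · exact hz1 h
        · exact hzP (h3 z h)
      · rw [List.cons_append]
        apply h2.chain.cons
        intro w hw
        rw [h1] at hw
        have : y = w := by simpa using hw
        rw [← this]
        exact hyz.symm
      · intro x hx
        rw [List.cons_append, List.mem_cons] at hx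
        rcases hx with rfl | hx
        · exact hz
        · exact h2.sub x hx
    · intro x hx
      rw [List.mem_cons] at hx
      rcases hx with rfl | hx
      · exact hzP
      · exact h4 x hx

theorem good_rch {G : SimpleGraph V} {S : Finset V} {P : List V} (hP : PL G S P) (p y : V)
    (hp : p ∈ P) (h : rch G S p y) : Good G S P y := by
  induction h with
  | refl => exact good_of_mem hP p hp
  | tail h1 h2 ih => exact good_step hP _ _ ih h2.2.1 h2.2.2

/-- two disjoint paths in the same component can be combined to a longer path -/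
theorem two_paths {G : SimpleGraph V} {S : Finset V} {P Q : List V} (hP : PL G S P)
    (hQ : PL G S Q) (hd : ∀ x ∈ P, x ∉ Q) (hlen : P.length = Q.length) (p q : V) (hp : p ∈ P)
    (hq : q ∈ Q) (h : rch G S p q) : ∃ l : List V, PL G S l ∧ l.length = P.length + 1 := by
  have hPS : PL G (S \ Q.toFinset) P := by
    refine ⟨hP.nodup, hP.chain, fun x hx => ?_⟩
    rw [mem_sdiff, List.mem_toFinset]
    exact ⟨hP.sub x hx, hd x hx⟩
  have key : ∀ y, rch G S p y → (y ∉ Q ∧ Good G (S \ Q.toFinset) P y) ∨
      ∃ l : List V, PL G S l ∧ P.length + 1 ≤ l.length := by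
    intro y hy
    induction hy with
    | refl => exact Or.inl ⟨hd p hp, good_of_mem hPS p hp⟩
    | tail h1 h2 ih =>
      rename_i y z
      rcases ih with ⟨hyQ, hg⟩ | h
      · by_cases hzQ : z ∈ Q
        · right
          obtain ⟨l1, l2, e1, e2, e3, e4, e5⟩ := hg
          obtain ⟨l3, f1, f2, f3, f4⟩ := half hQ z hzQ
          refine ⟨(l1 ++ l2).reverse ++ l3, ?_, ?_⟩
          · refine PL.append (e2.mono sdiff_subset).reverse f2 ?_ ?_
            · intro x hx hx3
              rw [List.mem_reverse] at hx
              have := e2.sub x hx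
              rw [mem_sdiff, List.mem_toFinset] at this
              exact this.2 (f3 x hx3)
            · intro x hx w hw
              rw [List.getLast?_reverse, e1] at hx
              rw [f1] at hw
              have h3 : y = x := by simpa using hx
              have h4 : z = w := by simpa using hw
              rw [← h3, ← h4]
              exact h2.2.2
          · rw [List.length_append, List.length_reverse, List.length_append]
            omega
        · left
          refine ⟨hzQ, good_step hPS y z hg ?_ h2.2.2⟩
          rw [mem_sdiff, List.mem_toFinset]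
          exact ⟨h2.2.1, hzQ⟩
      · exact Or.inr h
  rcases key q h with h | ⟨l, h1, h2⟩
  · exact absurd hq h.1
  · refine ⟨l.take (P.length + 1), h1.takeP _, ?_⟩
    rw [List.length_take]
    omega

/-- the vertex set of a path with `q` vertices -/
def HP (G : SimpleGraph V) (q : ℕ) (P : Finset V) : Prop :=
  ∃ l : List V, PL G univ l ∧ l.length = q ∧ l.toFinset = P

theorem HP_map (G H : SimpleGraph V) (σ : Equiv.Perm V) (q : ℕ) (P : Finset V)
    (hadj : ∀ x ∈ P, ∀ y ∈ P, G.Adj x y → H.Adj (σ x) (σ y)) (h : HP G q P) :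
    HP H q (P.map σ.toEmbedding) := by
  obtain ⟨l, h1, h2, rfl⟩ := h
  refine ⟨l.map σ, ⟨h1.nodup.map σ.injective, ?_, fun x _ => mem_univ x⟩, by simpa using h2, ?_⟩
  · rw [List.isChain_map]
    apply h1.chain.imp_of_mem_imp
    intro a b ha hb hab
    exact hadj a (List.mem_toFinset.mpr ha) b (List.mem_toFinset.mpr hb) hab
  · ext x
    rw [List.mem_toFinset, List.mem_map, mem_map_equiv, List.mem_toFinset]
    constructor
    · rintro ⟨a, ha, rfl⟩
      rwa [Equiv.symm_apply_apply]
    · intro h
      exact ⟨_, h, Equiv.apply_symm_apply _ _⟩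

theorem HP_iso {G H : SimpleGraph V} {π : V → Equiv.Perm V} (hH : Hypo G H π) (q : ℕ) :
    ∀ v, ∀ P, v ∉ P → (HP H q (P.map (π v).toEmbedding) ↔ HP G q P) := by
  intro v P hv
  have hne : ∀ x ∈ P, x ≠ v := fun x hx h => hv (h ▸ hx)
  constructor
  · intro h
    have h1 := HP_map H G (π v).symm q _ (by
      intro x hx y hy hadj
      obtain ⟨x', hx', rfl⟩ := mem_map.mp hx
      obtain ⟨y', hy', rfl⟩ := mem_map.mp hy
      have := (hH.adj v x' y' (hne x' hx') (hne y' hy')).mp hadj
      simpa using this) h
    rw [Finset.map_map] at h1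
    have h2 : (π v).toEmbedding.trans (π v).symm.toEmbedding = Function.Embedding.refl V := by
      ext y
      simp
    rwa [h2, Finset.map_refl] at h1
  · intro h
    apply HP_map G H (π v) q P _ h
    intro x hx y hy hadj
    exact (hH.adj v x y (hne x hx) (hne y hy)).mpr hadj

/-- a chain inside `S` which starts in a component stays in it -/
theorem chain_comp (G : SimpleGraph V) (S D : Finset V) (hD : D ∈ comps G S) :
    ∀ l : List V, PL G S l → (∀ x ∈ l.head?, x ∈ D) → ∀ x ∈ l, x ∈ D := by
  intro l
  induction l with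
  | nil => intro _ _ x hx; simp at hx
  | cons a l ih =>
    intro h1 h2 x hx
    have ha : a ∈ D := h2 a (by simp)
    rcases List.mem_cons.mp hx with rfl | hx
    · exact ha
    · refine ih (h1.part ⟨[a], [], by simp⟩) ?_ x hx
      intro y hy
      have hy' : y ∈ l := List.mem_of_mem_head? hy
      have hadj := h1.chain.rel_head? hy
      exact comp_closed G S D hD a y ha (h1.sub y (List.mem_cons_of_mem _ hy')) hadj

/-- a path through `x` and two components -/
theorem through (G : SimpleGraph V) (Z : Finset V) (x : V) (hx : x ∈ Z) (D D' : Finset V)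
    (hD : D ∈ comps G Zᶜ) (hD' : D' ∈ comps G Zᶜ) (hne : D ≠ D') (p : ℕ) (hp : 1 ≤ p)
    (P P' : List V) (hP : PL G D P) (hP' : PL G D' P') (hl : P.length = p) (hl' : P'.length = p)
    (y y' : V) (hy : y ∈ D) (hy' : y' ∈ D') (hxy : G.Adj x y) (hxy' : G.Adj x y') :
    ∃ R, x ∈ R ∧ R ≠ {x} ∧ R ⊆ insert x (D ∪ D') ∧ HP G (p + 1) R := by
  have hreach : ∀ (D : Finset V), D ∈ comps G Zᶜ → ∀ a ∈ D, ∀ b ∈ D, rch G D a b := by
    intro D hD a ha b hb
    have h1 : b ∈ comp G Zᶜ a := by rw [comp_of_mem G _ D hD a ha]; exact hb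
    exact (rch_closed G Zᶜ D (fun x hx y hy h => comp_closed G _ D hD x y hx hy h) ha
      ((mem_comp G _ _ _).mp h1).2).2
  have hex : ∀ (D : Finset V), D ∈ comps G Zᶜ → ∀ P : List V, PL G D P → P.length = p →
      ∀ y ∈ D, ∃ l : List V, l.head? = some y ∧ PL G D l ∧ p + 1 ≤ 2 * l.length := by
    intro D hD P hP hl y hy
    have hpos : 0 < P.length := by omega
    obtain ⟨q, hq⟩ := List.exists_mem_of_length_pos hpos
    obtain ⟨l1, l2, e1, e2, _, _, e5⟩ := good_rch hP q y hq (hreach D hD q (hP.sub q hq) y hy)
    refine ⟨l1 ++ l2, e1, e2, ?_⟩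
    rw [List.length_append]
    omega
  obtain ⟨l, e1, e2, e3⟩ := hex D hD P hP hl y hy
  obtain ⟨l', f1, f2, f3⟩ := hex D' hD' P' hP' hl' y' hy'
  have hdis : ∀ a, a ∈ D → a ∉ D' := by
    intro a ha ha'
    apply hne
    rw [← comp_of_mem G _ D hD a ha, ← comp_of_mem G _ D' hD' a ha']
  have hxD : x ∉ D := fun h => (mem_compl.mp (comps_sub G _ D hD h)) hx
  have hxD' : x ∉ D' := fun h => (mem_compl.mp (comps_sub G _ D' hD' h)) hx
  have ha1 : 1 ≤ (p + 1) / 2 := by omega
  set k := (p + 1) / 2 with hk
  set k' := p / 2 with hk'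
  have hlk : (l.take k).length = k := by
    rw [List.length_take]; omega
  have hlk' : (l'.take k').length = k' := by
    rw [List.length_take]; omega
  have hhead : (l.take k).head? = some y := by
    rw [List.head?_take, if_neg (by omega), e1]
  refine ⟨((l.take k).reverse ++ (x :: l'.take k')).toFinset, ?_, ?_, ?_, _, ?_, ?_, rfl⟩
  · rw [List.mem_toFinset]
    simp
  · intro h
    have : y ∈ ((l.take k).reverse ++ (x :: l'.take k')).toFinset := by
      rw [List.mem_toFinset, List.mem_append, List.mem_reverse]
      left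
      exact List.mem_of_mem_head? (by rw [hhead]; rfl)
    rw [h, mem_singleton] at this
    exact hxD (this ▸ hy)
  · intro a ha
    rw [List.mem_toFinset, List.mem_append, List.mem_reverse, List.mem_cons] at ha
    rw [mem_insert, mem_union]
    rcases ha with ha | ha | ha
    · exact Or.inr (Or.inl (e2.sub a (List.mem_of_mem_take ha)))
    · exact Or.inl ha
    · exact Or.inr (Or.inr (f2.sub a (List.mem_of_mem_take ha)))
  · refine PL.append ?_ ?_ ?_ ?_
    · exact ((e2.takeP _).mono (subset_univ _)).reverse
    · have h1 : PL G univ (l'.take k') :=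
        (f2.takeP _).mono (subset_univ _)
      refine ⟨?_, ?_, fun _ _ => mem_univ _⟩
      · rw [List.nodup_cons]
        exact ⟨fun h => hxD' (f2.sub x (List.mem_of_mem_take h)), h1.nodup⟩
      · apply h1.chain.cons
        intro w hw
        rw [List.head?_take] at hw
        split_ifs at hw
        · simp at hw
        · rw [f1] at hw
          have : y' = w := by simpa using hw
          rw [← this]
          exact hxy'
    · intro a ha hb
      rw [List.mem_reverse] at ha
      have haD := e2.sub a (List.mem_of_mem_take ha)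
      rw [List.mem_cons] at hb
      rcases hb with hb | hb
      · exact hxD (hb ▸ haD)
      · exact hdis a haD (f2.sub a (List.mem_of_mem_take hb))
    · intro a ha b hb
      rw [List.getLast?_reverse, hhead] at ha
      have h1 : y = a := by simpa using ha
      have h2 : x = b := by simpa using hb
      rw [← h1, ← h2]
      exact hxy.symm
  · rw [List.length_append, List.length_reverse, List.length_cons, hlk, hlk']
    omega

end Pool.Agent.Y400.Rec
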