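import Pool.Agent.Y400.Rec.Gap

set_option autoImplicit false
set_option linter.unusedSectionVars false

/-! Sunflowers with a one-point core as the vertex parameter, and the bound for graphs with many
comparable components over a set `Z`. -/

namespace Pool.Agent.Y400.Rec

open Finset Classical
open Pool.Agent.H234RC (Hypo NonIso)
open Pool.Agent.TH87.RVE (comps comps_sub comps_nonempty mem_comps comp_of_mem comp_closed
  comp_closed_eq)

variable {V : Type} [Fintype V]

/-- at least `m` members of `M` inside `S` which pairwise share exactly the vertex `x` -/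
def Pet (M : Finset V → Prop) (S : Finset V) (x : V) (m : ℕ) : Prop :=
  ∃ Ps : Finset (Finset V), m ≤ Ps.card ∧ (∀ P ∈ Ps, x ∈ P ∧ P ⊆ S ∧ M P) ∧
    ∀ P ∈ Ps, ∀ Q ∈ Ps, P ≠ Q → ∀ y, y ∈ P → y ∈ Q → y = x

theorem pet_param (M : Finset V → Prop) : Param (Pet M) where
  mono := by
    rintro S T x m hST ⟨Ps, h1, h2, h3⟩
    exact ⟨Ps, h1, fun P hP => ⟨(h2 P hP).1, (h2 P hP).2.1.trans hST, (h2 P hP).2.2⟩, h3⟩
  anti := by
    rintro S x m n hnm ⟨Ps, h1, h2, h3⟩
    exact ⟨Ps, hnm.trans h1, h2, h3⟩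
  del := by
    rintro x v m hv ⟨Ps, h1, h2, h3⟩
    refine ⟨Ps.filter (fun P => v ∉ P), ?_, ?_, ?_⟩
    · have h4 : (Ps.filter (fun P => v ∈ P)).card ≤ 1 := by
        rw [card_le_one]
        intro P hP Q hQ
        rw [mem_filter] at hP hQ
        by_contra hne
        exact hv (h3 P hP.1 Q hQ.1 hne v hP.2 hQ.2)
      have h5 := card_filter_add_card_filter_not (s := Ps) (fun P => v ∈ P)
      omega
    · intro P hP
      rw [mem_filter] at hP
      refine ⟨(h2 P hP.1).1, ?_, (h2 P hP.1).2.2⟩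
      intro y hy
      rw [mem_erase]
      exact ⟨fun h => hP.2 (h ▸ hy), mem_univ _⟩
    · intro P hP Q hQ
      exact h3 P (mem_filter.mp hP).1 Q (mem_filter.mp hQ).1

theorem pet_map (M M' : Finset V → Prop) (S S' : Finset V) (σ : Equiv.Perm V)
    (hS : ∀ y ∈ S, σ y ∈ S') (hM : ∀ P, P ⊆ S → M P → M' (P.map σ.toEmbedding)) (x : V) (m : ℕ)
    (h : Pet M S x m) : Pet M' S' (σ x) m := by
  obtain ⟨Ps, h1, h2, h3⟩ := h
  refine ⟨Ps.image (fun P => P.map σ.toEmbedding), ?_, ?_, ?_⟩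
  · rw [card_image_of_injective _ (Finset.map_injective _)]
    exact h1
  · intro Q hQ
    obtain ⟨P, hP, rfl⟩ := mem_image.mp hQ
    refine ⟨mem_map_of_mem _ (h2 P hP).1, ?_, hM P (h2 P hP).2.1 (h2 P hP).2.2⟩
    intro y hy
    obtain ⟨w, hw, rfl⟩ := mem_map.mp hy
    exact hS w ((h2 P hP).2.1 hw)
  · intro Q hQ Q' hQ' hne y hy hy'
    obtain ⟨P, hP, rfl⟩ := mem_image.mp hQ
    obtain ⟨P', hP', rfl⟩ := mem_image.mp hQ'
    obtain ⟨w, hw, rfl⟩ := mem_map.mp hy
    obtain ⟨w', hw', he⟩ := mem_map.mp hy'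
    have hww : w' = w := σ.injective he
    subst hww
    have := h3 P hP P' hP' (fun h => hne (by rw [h])) w' hw hw'
    rw [this]
    rfl

theorem pet_iso {G H : SimpleGraph V} {π : V → Equiv.Perm V} (hH : Hypo G H π)
    (M M' : Finset V → Prop)
    (hM : ∀ v, ∀ P, v ∉ P → (M' (P.map (π v).toEmbedding) ↔ M P)) :
    ∀ v x m, x ≠ v → (Pet M' (univ.erase v) (π v x) m ↔ Pet M (univ.erase v) x m) := by
  have hinv : ∀ v x, x ≠ v → (π v).symm x ≠ v := by
    intro v x hx h
    apply hx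
    have := congrArg (π v) h
    rwa [Equiv.apply_symm_apply, hH.fix] at this
  intro v x m hx
  constructor
  · intro h
    have h1 := pet_map M' M (univ.erase v) (univ.erase v) (π v).symm (by
      intro y hy
      rw [mem_erase] at hy ⊢
      exact ⟨hinv v y hy.1, mem_univ _⟩) (by
      intro P hP h2
      rw [← hM v]
      · rw [Finset.map_map]
        have : (π v).symm.toEmbedding.trans (π v).toEmbedding = Function.Embedding.refl V := by
          ext y
          simp
        rw [this, Finset.map_refl]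
        exact h2
      · intro hv
        obtain ⟨w, hw, he⟩ := mem_map.mp hv
        have := hP hw
        rw [mem_erase] at this
        exact hinv v w this.1 he) _ m h
    rwa [Equiv.symm_apply_apply] at h1
  · intro h
    refine pet_map M M' (univ.erase v) (univ.erase v) (π v) (by
      intro y hy
      rw [mem_erase] at hy ⊢
      refine ⟨fun he => hy.1 ?_, mem_univ _⟩
      apply (π v).injective
      rw [he, hH.fix]) (by
      intro P hP h2
      rw [hM v]
      · exact h2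
      · intro hv
        exact (mem_erase.mp (hP hv)).1 rfl) _ m h

section count

variable (G : SimpleGraph V) (M : Finset V → Prop) (Z : Finset V)
  (hZ : ∀ P, M P → ∃ x ∈ P, x ∈ Z)

include hZ

theorem pet_out (x : V) (hx : x ∉ Z) (m : ℕ) (h : Pet M univ x m) : m ≤ Z.card := by
  obtain ⟨Ps, h1, h2, h3⟩ := h
  refine h1.trans ?_
  have hch : ∀ P : Finset V, ∃ y : V, P ∈ Ps → y ∈ P ∧ y ∈ Z := by
    intro P
    by_cases hP : P ∈ Ps
    · obtain ⟨y, hy, hyZ⟩ := hZ P (h2 P hP).2.2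
      exact ⟨y, fun _ => ⟨hy, hyZ⟩⟩
    · exact ⟨x, fun h => absurd h hP⟩
  choose f hf using hch
  apply card_le_card_of_injOn f (fun P hP => (hf P hP).2)
  intro P hP Q hQ he
  by_contra hne
  have h4 := h3 P hP Q hQ hne (f P) (hf P hP).1 (he ▸ (hf Q hQ).1)
  exact hx (h4 ▸ (hf P hP).2)

theorem exists_gap : ∃ e, Z.card + 1 ≤ e ∧ e ≤ 3 * Z.card + 1 ∧
    ∀ x, Pet M univ x e → Pet M univ x (e + 2) := by
  by_contra hcon
  push Not at hcon
  have hch : ∀ i : ℕ, ∃ x : V, i ≤ Z.card → Pet M univ x (Z.card + 1 + 2 * i) ∧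
      ¬ Pet M univ x (Z.card + 1 + 2 * i + 2) := by
    intro i
    by_cases hi : i ≤ Z.card
    · obtain ⟨x, hx1, hx2⟩ := hcon (Z.card + 1 + 2 * i) (by omega) (by omega)
      exact ⟨x, fun _ => ⟨hx1, hx2⟩⟩
    · obtain ⟨x, hx1, hx2⟩ := hcon (Z.card + 1) (by omega) (by omega)
      exact ⟨x, fun h => absurd h hi⟩
  choose f hf using hch
  have h1 : (range (Z.card + 1)).card ≤ Z.card := by
    apply card_le_card_of_injOn f
    · intro i hi
      have hi' : i ≤ Z.card := by
        have := mem_range.mp hi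
        omega
      by_contra hx
      have := pet_out M Z hZ _ hx _ (hf i hi').1
      omega
    · have key : ∀ i j, i ≤ Z.card → j ≤ Z.card → i < j → f i ≠ f j := by
        intro i j hi hj hij he
        apply (hf i hi).2
        rw [he]
        exact (pet_param M).anti _ _ _ _ (by omega) (hf j hj).1
      intro i hi j hj he
      have hi' : i ≤ Z.card := by
        have := mem_range.mp hi
        omega
      have hj' : j ≤ Z.card := by
        have := mem_range.mp hj
        omega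
      rcases lt_trichotomy i j with h | h | h
      · exact absurd he (key i j hi' hj' h)
      · exact h
      · exact absurd he.symm (key j i hj' hi' h)
  rw [card_range] at h1
  omega

end count

/-- grouping the components which are adjacent to `x` -/
theorem group (M : Finset V → Prop) (x : V) (r : ℕ) (m : ℕ) :
    ∀ 𝒞 : Finset (Finset V), (∀ C ∈ 𝒞, x ∉ C) →
      (∀ C ∈ 𝒞, ∀ D ∈ 𝒞, C ≠ D → Disjoint C D) →
      (∀ ℰ, ℰ ⊆ 𝒞 → ℰ.card = r →
        ∃ P, x ∈ P ∧ P ≠ {x} ∧ P ⊆ insert x (ℰ.biUnion id) ∧ M P) →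
      r * m ≤ 𝒞.card →
      ∃ Ps : Finset (Finset V), Ps.card = m ∧
        (∀ P ∈ Ps, x ∈ P ∧ P ≠ {x} ∧ P ⊆ insert x (𝒞.biUnion id) ∧ M P) ∧
        ∀ P ∈ Ps, ∀ Q ∈ Ps, P ≠ Q → ∀ y, y ∈ P → y ∈ Q → y = x := by
  induction m with
  | zero =>
    intro 𝒞 _ _ _ _
    exact ⟨∅, rfl, by simp, by simp⟩
  | succ m ih =>
    intro 𝒞 h1 h2 h3 h4
    obtain ⟨ℰ, hℰ, hcard⟩ := exists_subset_card_eq (s := 𝒞) (n := r) (by
      have : r * (m + 1) = r * m + r := by ring
      omega)
    obtain ⟨Ps, hP1, hP2, hP3⟩ := ih (𝒞 \ ℰ) (fun C hC => h1 C (mem_sdiff.mp hC).1)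
      (fun C hC D hD => h2 C (mem_sdiff.mp hC).1 D (mem_sdiff.mp hD).1)
      (fun ℰ' h' => h3 ℰ' (h'.trans sdiff_subset)) (by
        rw [card_sdiff_of_subset hℰ, hcard]
        have : r * (m + 1) = r * m + r := by ring
        omega)
    obtain ⟨P0, hx, hne, hsub, hM⟩ := h3 ℰ hℰ hcard
    have hmeet : ∀ P ∈ Ps, ∀ y, y ∈ P → y ∈ P0 → y = x := by
      intro P hP y hy hy0
      by_contra hyx
      have e1 := (hP2 P hP).2.2.1 hy
      have e2 := hsub hy0
      rw [mem_insert] at e1 e2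
      rcases e1 with e1 | e1
      · exact hyx e1
      rcases e2 with e2 | e2
      · exact hyx e2
      rw [mem_biUnion] at e1 e2
      obtain ⟨C, hC, hyC⟩ := e1
      obtain ⟨D, hD, hyD⟩ := e2
      have hCD : C ≠ D := fun h => (mem_sdiff.mp hC).2 (h ▸ hD)
      have := h2 C (mem_sdiff.mp hC).1 D (hℰ hD) hCD
      exact (Finset.disjoint_left.mp this) hyC hyD
    have hnot : P0 ∉ Ps := by
      intro hmem
      apply hne
      ext y
      rw [mem_singleton]
      constructor
      · intro hy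
        exact hmeet P0 hmem y hy hy
      · rintro rfl
        exact hx
    refine ⟨insert P0 Ps, ?_, ?_, ?_⟩
    · rw [card_insert_of_notMem hnot, hP1]
    · intro P hP
      rcases mem_insert.mp hP with rfl | hP
      · refine ⟨hx, hne, hsub.trans ?_, hM⟩
        exact insert_subset_insert _ (biUnion_subset_biUnion_of_subset_left _ hℰ)
      · refine ⟨(hP2 P hP).1, (hP2 P hP).2.1, (hP2 P hP).2.2.1.trans ?_, (hP2 P hP).2.2.2⟩
        exact insert_subset_insert _ (biUnion_subset_biUnion_of_subset_left _ sdiff_subset)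
    · intro P hP Q hQ hPQ y hy hy'
      rcases mem_insert.mp hP with h5 | h5
      · rcases mem_insert.mp hQ with h6 | h6
        · exact absurd (h5.trans h6.symm) hPQ
        · exact hmeet Q h6 y hy' (h5 ▸ hy)
      · rcases mem_insert.mp hQ with h6 | h6
        · exact hmeet P h5 y hy (h6 ▸ hy')
        · exact hP3 P h5 Q h6 hPQ y hy hy'

/-- the main bound -/
theorem many_bound {G H : SimpleGraph V} {π : V → Equiv.Perm V} (hH : Hypo G H π)
    (hN : NonIso G H) (M M' : Finset V → Prop)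
    (hM : ∀ v, ∀ P, v ∉ P → (M' (P.map (π v).toEmbedding) ↔ M P))
    (Z : Finset V) (hZ : ∀ P, M P → ∃ x ∈ P, x ∈ Z) (r t : ℕ)
    (𝒟 : Finset (Finset V)) (h𝒟 : 𝒟 ⊆ comps G Zᶜ)
    (hx : ∀ x ∈ Z, ∀ ℰ, ℰ ⊆ 𝒟 → ℰ.card = r → (∀ D ∈ ℰ, ∃ y ∈ D, G.Adj x y) →
      ∃ P, x ∈ P ∧ P ≠ {x} ∧ P ⊆ insert x (ℰ.biUnion id) ∧ M P)
    (ht : 2 * (Z.card.factorial : ℝ) < (3 / 2 : ℝ) ^ t) :
    𝒟.card < t ^ 2 + Z.card * (r * (3 * Z.card + 1)) := by
  obtain ⟨e, he1, he2, hgap⟩ := exists_gap M Z hZ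
  set A : Finset V := univ.filter (fun x => Pet M univ x (e + 1)) with hAdef
  have hA : ∀ x, x ∈ A ↔ Pet M univ x (e + 1) := fun x => by rw [hAdef, mem_filter]; simp
  have hAZ : A ⊆ Z := by
    intro x hxA
    by_contra hxZ
    have := pet_out M Z hZ x hxZ _ ((hA x).mp hxA)
    omega
  have hb := gap_bound hH hN (Pet M) (Pet M') (pet_param M) (pet_param M')
    (pet_iso hH M M' hM) e hgap A hA t (by
      refine lt_of_le_of_lt ?_ ht
      have : (A.card.factorial : ℝ) ≤ (Z.card.factorial : ℝ) := by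
        exact_mod_cast Nat.factorial_le (card_le_card hAZ)
      linarith)
  -- the components which are adjacent to a vertex of `Z` outside `A`
  have hdisj : ∀ C ∈ 𝒟, ∀ D ∈ 𝒟, C ≠ D → Disjoint C D := by
    intro C hC D hD hne
    rw [Finset.disjoint_left]
    intro y hyC hyD
    apply hne
    rw [← comp_of_mem G _ C (h𝒟 hC) y hyC, ← comp_of_mem G _ D (h𝒟 hD) y hyD]
  have hcx : ∀ x ∈ Z \ A, (𝒟.filter (fun D => ∃ y ∈ D, G.Adj x y)).card ≤ r * (3 * Z.card + 1) := by
    intro x hxm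
    rw [mem_sdiff] at hxm
    by_contra hlt
    push Not at hlt
    apply hxm.2
    rw [hA]
    have h1 : r * e ≤ r * (3 * Z.card + 1) := Nat.mul_le_mul_left _ he2
    obtain ⟨Ps, hP1, hP2, hP3⟩ := group M x r e (𝒟.filter (fun D => ∃ y ∈ D, G.Adj x y))
      (by
        intro C hC hxC
        have := comps_sub G _ C (h𝒟 (mem_filter.mp hC).1) hxC
        exact (mem_compl.mp this) hxm.1)
      (fun C hC D hD => hdisj C (mem_filter.mp hC).1 D (mem_filter.mp hD).1)
      (by
        intro ℰ hℰ hc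
        exact hx x hxm.1 ℰ (hℰ.trans (filter_subset _ _)) hc
          (fun D hD => (mem_filter.mp (hℰ hD)).2))
      (by omega)
    have h2 : Pet M univ x e :=
      ⟨Ps, hP1.ge, fun P hP => ⟨(hP2 P hP).1, subset_univ _, (hP2 P hP).2.2.2⟩, hP3⟩
    exact (pet_param M).anti _ _ _ _ (by omega) (hgap x h2)
  have hcount : 𝒟.card ≤ (comps G Aᶜ).card + Z.card * (r * (3 * Z.card + 1)) := by
    have h1 : 𝒟 ⊆ comps G Aᶜ ∪ (Z \ A).biUnion
        (fun x => 𝒟.filter (fun D => ∃ y ∈ D, G.Adj x y)) := by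
      intro D hD
      have hDs := comps_sub G _ D (h𝒟 hD)
      rw [mem_union]
      by_cases hF : ∃ x ∈ Z \ A, ∃ y ∈ D, G.Adj x y
      · right
        obtain ⟨x, hxm, hy⟩ := hF
        rw [mem_biUnion]
        exact ⟨x, hxm, mem_filter.mpr ⟨hD, hy⟩⟩
      · left
        push Not at hF
        have hDA : D ⊆ Aᶜ := fun y hy => mem_compl.mpr (fun h =>
          (mem_compl.mp (hDs hy)) (hAZ h))
        have hcl : ∀ x ∈ D, ∀ y ∈ Aᶜ, G.Adj x y → y ∈ D := by
          intro x hxD y hy hadj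
          have hyZ : y ∈ Zᶜ := by
            rw [mem_compl]
            intro hyZ
            exact hF y (mem_sdiff.mpr ⟨hyZ, mem_compl.mp hy⟩) x hxD hadj.symm
          exact comp_closed G _ D (h𝒟 hD) x y hxD hyZ hadj
        obtain ⟨x, hxD⟩ := comps_nonempty G _ D (h𝒟 hD)
        rw [mem_comps]
        refine ⟨x, hDA hxD, ?_⟩
        rw [comp_closed_eq G Aᶜ D hDA hcl x hxD,
          ← comp_closed_eq G Zᶜ D hDs (fun x hx y hy h => comp_closed G _ D (h𝒟 hD) x y hx hy h)
            x hxD]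
        exact comp_of_mem G _ D (h𝒟 hD) x hxD
    calc 𝒟.card ≤ (comps G Aᶜ ∪ (Z \ A).biUnion
        (fun x => 𝒟.filter (fun D => ∃ y ∈ D, G.Adj x y))).card := card_le_card h1
      _ ≤ (comps G Aᶜ).card + ((Z \ A).biUnion
        (fun x => 𝒟.filter (fun D => ∃ y ∈ D, G.Adj x y))).card := card_union_le _ _
      _ ≤ (comps G Aᶜ).card + Z.card * (r * (3 * Z.card + 1)) := by
          apply Nat.add_le_add_left
          calc _ ≤ ∑ x ∈ Z \ A, (𝒟.filter (fun D => ∃ y ∈ D, G.Adj x y)).card := card_biUnion_le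
            _ ≤ ∑ _x ∈ Z \ A, r * (3 * Z.card + 1) := sum_le_sum hcx
            _ = (Z \ A).card * (r * (3 * Z.card + 1)) := by rw [sum_const, smul_eq_mul]
            _ ≤ Z.card * (r * (3 * Z.card + 1)) :=
                Nat.mul_le_mul_right _ (card_le_card sdiff_subset)
  omega

end Pool.Agent.Y400.Rec
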